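import Mathlib

set_option autoImplicit false

/-!
Hahn series with rational exponents: the derivation `s d/ds`, supports, projections.
-/

namespace Pool.Agent.N780.Rat

open HahnSeries

/-- Hahn series with rational exponents and complex coefficients -/
abbrev Hq : Type := HahnSeries ℚ ℂ

/-- `s d/ds` -/
noncomputable def hD (f : Hq) : Hq where
  coeff γ := (γ : ℂ) * f.coeff γ
  isPWO_support' := f.isPWO_support.mono fun γ hγ h0 => hγ (by
    change (γ : ℂ) * f.coeff γ = 0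
    rw [h0, mul_zero])

theorem hD_coeff (f : Hq) (γ : ℚ) : (hD f).coeff γ = (γ : ℂ) * f.coeff γ := rfl

theorem hD_support (f : Hq) : (hD f).support ⊆ f.support := fun γ hγ h0 => hγ (by
  change (γ : ℂ) * f.coeff γ = 0
  rw [h0, mul_zero])

theorem hD_add (f g : Hq) : hD (f + g) = hD f + hD g := by
  ext γ
  rw [coeff_add, hD_coeff, hD_coeff, hD_coeff, coeff_add, mul_add]

theorem hD_mul (f g : Hq) : hD (f * g) = hD f * g + f * hD g := by
  ext γ
  rw [coeff_add, hD_coeff, coeff_mul, coeff_mul_left' f.isPWO_support (hD_support f),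
    coeff_mul_right' g.isPWO_support (hD_support g), Finset.mul_sum, ← Finset.sum_add_distrib]
  refine Finset.sum_congr rfl fun x hx => ?_
  have h := (Finset.mem_antidiagonal.1 hx).2.2
  rw [hD_coeff, hD_coeff, ← h]
  push_cast
  ring

theorem hD_zero : hD 0 = 0 := by
  ext γ; rw [hD_coeff, coeff_zero, mul_zero]

theorem hD_neg (f : Hq) : hD (-f) = -hD f := by
  ext γ; rw [hD_coeff, coeff_neg, coeff_neg, hD_coeff, mul_neg]

theorem hD_sub (f g : Hq) : hD (f - g) = hD f - hD g := by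
  rw [sub_eq_add_neg, hD_add, hD_neg, ← sub_eq_add_neg]

theorem hD_sum {α : Type*} (t : Finset α) (f : α → Hq) : hD (∑ a ∈ t, f a) = ∑ a ∈ t, hD (f a) := by
  classical
  induction t using Finset.induction_on with
  | empty => rw [Finset.sum_empty, Finset.sum_empty, hD_zero]
  | insert a t ha ih => rw [Finset.sum_insert ha, Finset.sum_insert ha, hD_add, ih]

theorem hD_single (γ : ℚ) (a : ℂ) : hD (single γ a) = single γ ((γ : ℂ) * a) := by
  ext δ
  rw [hD_coeff, coeff_single, coeff_single]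
  split_ifs with h
  · rw [h]
  · rw [mul_zero]

theorem hD_C (a : ℂ) : hD (C a) = 0 := by
  rw [C_apply, hD_single]; simp

theorem hD_one : hD 1 = 0 := by
  have := hD_C 1
  rwa [map_one] at this

/-- the support lies in `S` -/
def Sp (S : Set ℚ) (f : Hq) : Prop := ∀ γ, f.coeff γ ≠ 0 → γ ∈ S

theorem Sp.mono {S T : Set ℚ} {f : Hq} (h : Sp S f) (hST : S ⊆ T) : Sp T f := fun γ hγ => hST (h γ hγ)

theorem Sp.zero (S : Set ℚ) : Sp S 0 := fun γ h => absurd (coeff_zero) h

theorem Sp.add {S : Set ℚ} {f g : Hq} (hf : Sp S f) (hg : Sp S g) : Sp S (f + g) := by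
  intro γ hγ
  rw [coeff_add] at hγ
  by_cases h : f.coeff γ = 0
  · rw [h, zero_add] at hγ; exact hg γ hγ
  · exact hf γ h

theorem Sp.neg {S : Set ℚ} {f : Hq} (hf : Sp S f) : Sp S (-f) := by
  intro γ hγ
  rw [coeff_neg] at hγ
  exact hf γ fun h => hγ (by rw [h, neg_zero])

theorem Sp.sub {S : Set ℚ} {f g : Hq} (hf : Sp S f) (hg : Sp S g) : Sp S (f - g) := by
  rw [sub_eq_add_neg]; exact hf.add hg.neg

theorem Sp.sum {S : Set ℚ} {α : Type*} (t : Finset α) {f : α → Hq} (hf : ∀ a ∈ t, Sp S (f a)) :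
    Sp S (∑ a ∈ t, f a) := by
  classical
  induction t using Finset.induction_on with
  | empty => rw [Finset.sum_empty]; exact Sp.zero S
  | insert a t ha ih =>
    rw [Finset.sum_insert ha]
    exact (hf a (Finset.mem_insert_self _ _)).add
      (ih fun b hb => hf b (Finset.mem_insert_of_mem hb))

theorem Sp.mul {S T U : Set ℚ} {f g : Hq} (hf : Sp S f) (hg : Sp T g)
    (h : ∀ a ∈ S, ∀ b ∈ T, a + b ∈ U) : Sp U (f * g) := by
  intro γ hγ
  rw [coeff_mul] at hγ
  obtain ⟨x, hx, hx2⟩ := Finset.exists_ne_zero_of_sum_ne_zero hγ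
  rw [← (Finset.mem_antidiagonal.1 hx).2.2]
  exact h _ (hf _ (left_ne_zero_of_mul hx2)) _ (hg _ (right_ne_zero_of_mul hx2))

theorem Sp.hD {S : Set ℚ} {f : Hq} (hf : Sp S f) : Sp S (hD f) := by
  intro γ hγ
  rw [hD_coeff] at hγ
  exact hf γ (right_ne_zero_of_mul hγ)

/-- the integers -/
def Zs : Set ℚ := {γ | ∃ n : ℤ, γ = n}

/-- the natural numbers -/
def Ns : Set ℚ := {γ | ∃ n : ℕ, γ = n}

/-- the numbers `≥ b` -/
def Ge (b : ℚ) : Set ℚ := {γ | b ≤ γ}

theorem Zs_add : ∀ a ∈ Zs, ∀ b ∈ Zs, a + b ∈ Zs := by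
  rintro _ ⟨a, rfl⟩ _ ⟨b, rfl⟩
  exact ⟨a + b, by push_cast; ring⟩

theorem Ns_add : ∀ a ∈ Ns, ∀ b ∈ Ns, a + b ∈ Ns := by
  rintro _ ⟨a, rfl⟩ _ ⟨b, rfl⟩
  exact ⟨a + b, by push_cast; ring⟩

theorem Ge_add {a b : ℚ} : ∀ x ∈ Ge a, ∀ y ∈ Ge b, x + y ∈ Ge (a + b) := fun x hx y hy => by
  change a ≤ x at hx
  change b ≤ y at hy
  change a + b ≤ x + y
  linarith

theorem Ns_Zs : Ns ⊆ Zs := by
  rintro _ ⟨n, rfl⟩; exact ⟨n, by push_cast; rfl⟩

theorem Ns_Ge : Ns ⊆ Ge 0 := by
  rintro _ ⟨n, rfl⟩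
  change (0 : ℚ) ≤ n
  positivity

theorem Sp.one_Ns : Sp Ns 1 := by
  intro γ hγ
  rw [coeff_one] at hγ
  split_ifs at hγ with h
  · exact ⟨0, by rw [h]; simp⟩
  · exact absurd rfl hγ

theorem Sp.single {S : Set ℚ} {γ : ℚ} (hγ : γ ∈ S) (a : ℂ) : Sp S (single γ a) := by
  intro δ hδ
  rw [coeff_single] at hδ
  split_ifs at hδ with h
  · rwa [h]
  · exact absurd rfl hδ

theorem Sp.C_Ns (a : ℂ) : Sp Ns (C a) := by
  rw [C_apply]; exact Sp.single (S := Ns) (γ := 0) ⟨0, by simp⟩ a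

/-- every series is supported above some bound -/
theorem exists_Ge (f : Hq) : ∃ b : ℕ, Sp (Ge (-(b : ℚ))) f := by
  by_cases hf : f = 0
  · exact ⟨0, by rw [hf]; exact Sp.zero _⟩
  · obtain ⟨b, hb⟩ := exists_nat_gt (-f.order)
    refine ⟨b, fun γ hγ => ?_⟩
    have h1 : f.order ≤ γ := order_le_of_coeff_ne_zero hγ
    change -(b : ℚ) ≤ γ
    linarith

theorem exists_Ge_fin {α : Type*} [Fintype α] (f : α → Hq) :
    ∃ b : ℕ, ∀ a, Sp (Ge (-(b : ℚ))) (f a) := by
  choose b hb using fun a => exists_Ge (f a)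
  refine ⟨∑ a, b a, fun a => (hb a).mono fun γ hγ => ?_⟩
  have h1 : b a ≤ ∑ a, b a := Finset.single_le_sum (fun _ _ => Nat.zero_le _) (Finset.mem_univ a)
  have h2 : (b a : ℚ) ≤ ((∑ a, b a : ℕ) : ℚ) := by exact_mod_cast h1
  change -(((∑ a, b a : ℕ)) : ℚ) ≤ γ
  have h3 : -(b a : ℚ) ≤ γ := hγ
  linarith

open Classical in
/-- restriction of the support -/
noncomputable def res (S : Set ℚ) (f : Hq) : Hq where
  coeff γ := if γ ∈ S then f.coeff γ else 0
  isPWO_support' := f.isPWO_support.mono fun γ hγ h0 => hγ (by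
    change (if γ ∈ S then f.coeff γ else 0) = 0
    rw [h0, ite_self])

theorem res_coeff_mem {S : Set ℚ} {f : Hq} {γ : ℚ} (h : γ ∈ S) : (res S f).coeff γ = f.coeff γ :=
  if_pos h

theorem res_coeff_notMem {S : Set ℚ} {f : Hq} {γ : ℚ} (h : γ ∉ S) : (res S f).coeff γ = 0 :=
  if_neg h

theorem res_sp (S : Set ℚ) (f : Hq) : Sp S (res S f) := by
  intro γ hγ
  by_contra h
  exact hγ (res_coeff_notMem h)

theorem res_hD (S : Set ℚ) (f : Hq) : res S (hD f) = hD (res S f) := by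
  ext γ
  by_cases h : γ ∈ S
  · rw [res_coeff_mem h, hD_coeff, hD_coeff, res_coeff_mem h]
  · rw [res_coeff_notMem h, hD_coeff, res_coeff_notMem h, mul_zero]

theorem res_sum {α : Type*} (S : Set ℚ) (t : Finset α) (f : α → Hq) :
    res S (∑ a ∈ t, f a) = ∑ a ∈ t, res S (f a) := by
  classical
  induction t using Finset.induction_on with
  | empty =>
    rw [Finset.sum_empty, Finset.sum_empty]
    ext γ
    by_cases h : γ ∈ S
    · rw [res_coeff_mem h]
    · rw [res_coeff_notMem h, coeff_zero]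
  | insert a t ha ih =>
    rw [Finset.sum_insert ha, Finset.sum_insert ha, ← ih]
    ext γ
    by_cases h : γ ∈ S
    · rw [res_coeff_mem h, coeff_add, coeff_add, res_coeff_mem h, res_coeff_mem h]
    · rw [res_coeff_notMem h, coeff_add, res_coeff_notMem h, res_coeff_notMem h, add_zero]

/-- multiplication by a series supported in a group of periods of `S` -/
theorem res_mul {S T : Set ℚ} {b f : Hq} (hb : Sp T b) (h : ∀ β ∈ T, ∀ γ, β + γ ∈ S ↔ γ ∈ S) :
    res S (b * f) = b * res S f := by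
  ext γ
  have hsub : (res S f).support ⊆ f.support := fun δ hδ h0 => hδ (by
    by_cases h1 : δ ∈ S
    · rw [res_coeff_mem h1, h0]
    · exact res_coeff_notMem h1)
  rw [coeff_mul_right' f.isPWO_support hsub]
  by_cases hγ : γ ∈ S
  · rw [res_coeff_mem hγ, coeff_mul]
    refine Finset.sum_congr rfl fun x hx => ?_
    have h1 := (Finset.mem_antidiagonal.1 hx).2.2
    have h2 : x.1 ∈ T := hb _ (Finset.mem_antidiagonal.1 hx).1
    have h3 : x.2 ∈ S := (h x.1 h2 x.2).1 (by rwa [h1])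
    rw [res_coeff_mem h3]
  · rw [res_coeff_notMem hγ]
    symm
    refine Finset.sum_eq_zero fun x hx => ?_
    have h1 := (Finset.mem_antidiagonal.1 hx).2.2
    have h2 : x.1 ∈ T := hb _ (Finset.mem_antidiagonal.1 hx).1
    have h3 : x.2 ∉ S := fun h4 => hγ (by rw [← h1]; exact (h x.1 h2 x.2).2 h4)
    rw [res_coeff_notMem h3, mul_zero]

/-- the constants -/
theorem const_of_hD {f : Hq} (h : hD f = 0) : f = C (f.coeff 0) := by
  ext γ
  rw [C_apply, coeff_single]
  split_ifs with h0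
  · rw [h0]
  · have h1 : (hD f).coeff γ = 0 := by rw [h, coeff_zero]
    rw [hD_coeff] at h1
    rcases mul_eq_zero.1 h1 with h2 | h2
    · exact absurd (by exact_mod_cast h2) h0
    · exact h2

theorem res_zero (S : Set ℚ) : res S 0 = 0 := by
  ext γ
  by_cases h : γ ∈ S
  · rw [res_coeff_mem h]
  · rw [res_coeff_notMem h, coeff_zero]

end Pool.Agent.N780.Rat
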