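import Mathlib
import Pool.Agent.R401.Iso

set_option autoImplicit false

/-!
Extensions of the `p`-adic absolute value to the complex numbers.
-/

namespace Pool.Agent.N780.Rat

/-- an ultrametric multiplicative norm on `ℂ` which is less than one at `p` -/
structure Nu (p : ℕ) where
  ν : ℂ → ℝ
  nonneg : ∀ a, 0 ≤ ν a
  zero : ν 0 = 0
  pos : ∀ a, a ≠ 0 → 0 < ν a
  mul : ∀ a b, ν (a * b) = ν a * ν b
  add : ∀ a b, ν (a + b) ≤ max (ν a) (ν b)
  int : ∀ n : ℤ, ν n ≤ 1
  p_lt : ν p < 1

theorem exists_nu (p : ℕ) [Fact p.Prime] : Nonempty (Nu p) := by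
  obtain ⟨e⟩ := Pool.Agent.R401.Iso.exists_iso p
  have hna := PadicAlgCl.isNonarchimedean p
  refine ⟨{ ν := fun z => ‖e.symm z‖
            nonneg := fun a => norm_nonneg _
            zero := by simp
            pos := fun a ha => norm_pos_iff.2 fun h => ha (by
              have := congrArg e h
              rwa [RingEquiv.apply_symm_apply, map_zero] at this)
            mul := fun a b => by rw [map_mul, norm_mul]
            add := fun a b => by rw [map_add]; exact hna _ _
            int := ?_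
            p_lt := ?_ }⟩
  · intro n
    rw [map_intCast]
    have h : ((n : PadicAlgCl p)) = ((n : ℚ_[p]) : PadicAlgCl p) := by simp
    rw [h, PadicAlgCl.norm_extends]
    exact Padic.norm_int_le_one n
  · rw [map_natCast]
    have h : ((p : PadicAlgCl p)) = ((p : ℚ_[p]) : PadicAlgCl p) := by simp
    rw [h, PadicAlgCl.norm_extends]
    exact Padic.norm_p_lt_one

namespace Nu

variable {p : ℕ} (N : Nu p)

theorem one : N.ν 1 = 1 := by
  have h := N.mul 1 1
  rw [mul_one] at h
  have h1 := N.pos 1 one_ne_zero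
  nlinarith

theorem sum {α : Type*} (t : Finset α) (f : α → ℂ) {C : ℝ} (hC : 0 ≤ C) (h : ∀ a ∈ t, N.ν (f a) ≤ C) :
    N.ν (∑ a ∈ t, f a) ≤ C := by
  classical
  induction t using Finset.induction_on with
  | empty => rw [Finset.sum_empty, N.zero]; exact hC
  | insert a t ha ih =>
    rw [Finset.sum_insert ha]
    refine (N.add _ _).trans (max_le (h a (Finset.mem_insert_self _ _)) ?_)
    exact ih fun b hb => h b (Finset.mem_insert_of_mem hb)

theorem pow (a : ℂ) (k : ℕ) : N.ν (a ^ k) = N.ν a ^ k := by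
  induction k with
  | zero => rw [pow_zero, pow_zero, N.one]
  | succ k ih => rw [pow_succ, pow_succ, N.mul, ih]

theorem neg (a : ℂ) : N.ν (-a) ≤ N.ν a := by
  have h : -a = ((-1 : ℤ) : ℂ) * a := by push_cast; ring
  rw [h, N.mul]
  have := N.int (-1)
  have h2 := N.nonneg a
  nlinarith

/-- a rational number with denominator divisible by `p` has norm larger than one -/
theorem rat_gt [hp : Fact p.Prime] (α : ℚ) (h : p ∣ α.den) : 1 < N.ν (α : ℂ) := by
  have hcop : IsCoprime (α.num) (p : ℤ) := by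
    have h1 : Nat.Coprime α.num.natAbs p := Nat.Coprime.coprime_dvd_right h α.reduced
    rw [Int.isCoprime_iff_gcd_eq_one]
    exact h1
  obtain ⟨u, v, huv⟩ := hcop
  have hpl := N.p_lt
  have h1 : 1 ≤ N.ν (α.num : ℂ) := by
    by_contra hlt
    push Not at hlt
    have h2 : N.ν 1 ≤ max (N.ν ((u : ℂ) * α.num)) (N.ν ((v : ℂ) * p)) := by
      have e : (1 : ℂ) = (u : ℂ) * α.num + (v : ℂ) * p := by exact_mod_cast huv.symm
      rw [e]
      exact N.add _ _
    rw [N.one, N.mul, N.mul] at h2
    have h3 : N.ν (u : ℂ) * N.ν (α.num : ℂ) < 1 := by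
      have := N.int u
      have h4 := N.nonneg (u : ℂ)
      have h5 := N.nonneg (α.num : ℂ)
      nlinarith
    have h4 : N.ν (v : ℂ) * N.ν (p : ℂ) < 1 := by
      have := N.int v
      have h4 := N.nonneg (v : ℂ)
      have h5 := N.nonneg (p : ℂ)
      nlinarith
    rcases le_max_iff.1 h2 with h5 | h5 <;> linarith
  obtain ⟨d, hd⟩ := h
  have h2 : N.ν (α.den : ℂ) < 1 := by
    rw [hd]
    push_cast
    rw [N.mul]
    have h3 := N.int d
    have h4 := N.nonneg (d : ℂ)
    have h5 := N.nonneg (p : ℂ)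
    have h6 : N.ν (d : ℂ) ≤ 1 := by exact_mod_cast h3
    nlinarith
  have h3 : N.ν (α : ℂ) * N.ν (α.den : ℂ) = N.ν (α.num : ℂ) := by
    rw [← N.mul]
    congr 1
    have h4 : (α : ℂ) = (α.num : ℂ) / (α.den : ℂ) := by exact_mod_cast (Rat.num_div_den α).symm
    have h5 : (α.den : ℂ) ≠ 0 := by exact_mod_cast α.den_ne_zero
    rw [h4, div_mul_cancel₀ _ h5]
  have h5 := N.nonneg (α : ℂ)
  have h6 := N.nonneg (α.den : ℂ)
  by_contra hlt
  push Not at hlt
  nlinarith

end Nu

end Pool.Agent.N780.Rat
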