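import Mathlib
import Pool.Agent.N780.R.Hah
import Pool.Agent.N780.R.Nu

set_option autoImplicit false

/-!
RP/A (by helper765): a fundamental matrix of Hahn series of a system with integral coefficients has
integer exponents.
-/

namespace Pool.Agent.N780.Rat

open HahnSeries

namespace A

theorem nu_integral {p : ℕ} (N : Nu p) (a : ℂ) (ha : IsIntegral ℤ a) : N.ν a ≤ 1 := by
  obtain ⟨P, hP, hPa⟩ := ha
  by_contra hlt
  push Not at hlt
  rw [Polynomial.eval₂_eq_sum_range, Finset.sum_range_succ, hP.coeff_natDegree] at hPa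
  have e : a ^ P.natDegree = -∑ x ∈ Finset.range P.natDegree, (algebraMap ℤ ℂ) (P.coeff x) * a ^ x := by
    rw [map_one, one_mul] at hPa
    exact eq_neg_of_add_eq_zero_right hPa
  rcases Nat.eq_zero_or_pos P.natDegree with h0 | h0
  · rw [h0, pow_zero, Finset.sum_range_zero, neg_zero] at e
    exact one_ne_zero e
  obtain ⟨k, hk⟩ := Nat.exists_eq_succ_of_ne_zero h0.ne'
  have h1 : N.ν (a ^ P.natDegree) ≤ N.ν a ^ k := by
    rw [e]
    refine (N.neg _).trans (N.sum _ _ (pow_nonneg (N.nonneg _) _) fun i hi => ?_)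
    rw [N.mul, N.pow]
    have h2 : i ≤ k := by
      have := Finset.mem_range.1 hi
      omega
    have h3 : N.ν ((algebraMap ℤ ℂ) (P.coeff i)) ≤ 1 := by
      have := N.int (P.coeff i)
      simpa using this
    have h4 : N.ν a ^ i ≤ N.ν a ^ k := pow_le_pow_right₀ hlt.le h2
    have h5 : 0 ≤ N.ν a ^ i := pow_nonneg (N.nonneg _) _
    calc N.ν ((algebraMap ℤ ℂ) (P.coeff i)) * N.ν a ^ i ≤ 1 * N.ν a ^ i :=
          mul_le_mul_of_nonneg_right h3 h5
      _ ≤ N.ν a ^ k := by rw [one_mul]; exact h4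
  rw [N.pow, hk, pow_succ] at h1
  have h2 : 0 < N.ν a ^ k := pow_pos (by linarith) _
  nlinarith

variable {m : Type} [Fintype m] [DecidableEq m]

/-- derivative of a vector -/
noncomputable def dv (w : m → Hq) : m → Hq := fun i => hD (w i)

omit [DecidableEq m] in
theorem dv_mulVec {Φ B : Matrix m m Hq} (hD' : ∀ i j, hD (Φ i j) = ∑ l, B i l * Φ l j) (u : m → Hq) :
    dv (Φ.mulVec u) = B.mulVec (Φ.mulVec u) + Φ.mulVec (dv u) := by
  have hm : Matrix.mulVec (B * Φ) u = B.mulVec (Φ.mulVec u) := (Matrix.mulVec_mulVec u B Φ).symm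
  rw [← hm]
  ext1 i
  rw [Pi.add_apply]
  change hD (∑ j, Φ i j * u j) = (∑ j, (B * Φ) i j * u j) + ∑ j, Φ i j * hD (u j)
  rw [hD_sum, ← Finset.sum_add_distrib]
  refine Finset.sum_congr rfl fun j _ => ?_
  rw [hD_mul, hD' i j, Matrix.mul_apply]

/-- the connection -/
noncomputable def nab (B : Matrix m m Hq) (w : m → Hq) : m → Hq := dv w - B.mulVec w

theorem mulVec_nab {Φ Ψ B : Matrix m m Hq} (hΨ : Ψ * Φ = 1)
    (hD' : ∀ i j, hD (Φ i j) = ∑ l, B i l * Φ l j) (w : m → Hq) :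
    Ψ.mulVec (nab B w) = dv (Ψ.mulVec w) := by
  have hΦ : Φ * Ψ = 1 := mul_eq_one_comm.1 hΨ
  have h1 : w = Φ.mulVec (Ψ.mulVec w) := by
    rw [Matrix.mulVec_mulVec, hΦ, Matrix.one_mulVec]
  have h2 := dv_mulVec hD' (Ψ.mulVec w)
  rw [← h1] at h2
  rw [nab, h2, add_sub_cancel_left, Matrix.mulVec_mulVec, hΨ, Matrix.one_mulVec]

omit [DecidableEq m] in
theorem sp_mulVec {S T U : Set ℚ} {A : Matrix m m Hq} {w : m → Hq} (hA : ∀ i j, Sp S (A i j))
    (hw : ∀ i, Sp T (w i)) (h : ∀ a ∈ S, ∀ b ∈ T, a + b ∈ U) (i : m) : Sp U (A.mulVec w i) :=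
  Sp.sum _ fun j _ => (hA i j).mul (hw j) h

/-- the lattice -/
structure LL {p : ℕ} (N : Nu p) (Ψ : Matrix m m Hq) (R : ℝ) (w : m → Hq) : Prop where
  a : ∀ i, Sp Zs (w i)
  b : ∀ i g, N.ν ((w i).coeff g) ≤ R
  c : ∀ i, Sp (Ge 0) (Ψ.mulVec w i)

theorem LL.nab {p : ℕ} {N : Nu p} {Φ Ψ B : Matrix m m Hq} (hΨ : Ψ * Φ = 1)
    (hB : ∀ i j, Sp Zs (B i j)) (hBi : ∀ i j γ, IsIntegral ℤ ((B i j).coeff γ))
    (hD' : ∀ i j, hD (Φ i j) = ∑ l, B i l * Φ l j) {R : ℝ} (hR : 0 ≤ R) {w : m → Hq}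
    (h : LL N Ψ R w) : LL N Ψ R (nab B w) where
  a i := ((h.a i).hD).sub (sp_mulVec hB h.a Zs_add i)
  b i g := by
    have e : (A.nab B w i).coeff g = (g : ℂ) * (w i).coeff g + -∑ j, (B i j * w j).coeff g := by
      change (hD (w i) - ∑ j, B i j * w j).coeff g = _
      rw [coeff_sub, hD_coeff, coeff_sum, sub_eq_add_neg]
    rw [e]
    refine (N.add _ _).trans (max_le ?_ ((N.neg _).trans ?_))
    · by_cases h0 : (w i).coeff g = 0
      · rw [h0, mul_zero, N.zero]; exact hR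
      · obtain ⟨n, hn⟩ := h.a i g h0
        rw [N.mul]
        have h1 : N.ν ((g : ℚ) : ℂ) ≤ 1 := by
          have := N.int n
          rw [hn]
          simpa using this
        have h2 := h.b i g
        have h3 := N.nonneg ((w i).coeff g)
        nlinarith [N.nonneg ((g : ℚ) : ℂ)]
    · refine N.sum _ _ hR fun j _ => ?_
      rw [coeff_mul]
      refine N.sum _ _ hR fun x _ => ?_
      rw [N.mul]
      have h1 := nu_integral N _ (hBi i j x.1)
      have h2 := h.b j x.2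
      have h3 := N.nonneg ((w j).coeff x.2)
      nlinarith [N.nonneg ((B i j).coeff x.1)]
  c i := by
    rw [mulVec_nab hΨ hD']
    exact (h.c i).hD

theorem bound {p : ℕ} (N : Nu p) {Φ Ψ : Matrix m m Hq} (hΨ : Ψ * Φ = 1) {R : ℝ} (hR : 0 ≤ R) (θ : ℚ)
    (i : m) : ∃ Cst : ℝ, ∀ w, LL N Ψ R w → N.ν ((Ψ.mulVec w i).coeff θ) ≤ Cst := by
  have hΦ : Φ * Ψ = 1 := mul_eq_one_comm.1 hΨ
  obtain ⟨b, hb⟩ := exists_Ge_fin (α := m × m) fun x => Φ x.1 x.2
  obtain ⟨b', hb'⟩ := exists_Ge_fin (α := m × m) fun x => Ψ x.1 x.2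
  obtain ⟨M, hM⟩ := exists_int_gt (θ + b')
  refine ⟨∑ j, ∑ d ∈ Finset.Icc (-(b : ℤ)) M, N.ν ((Ψ i j).coeff (θ - d)) * R, fun w hw => ?_⟩
  have hC0 : ∀ j, 0 ≤ ∑ d ∈ Finset.Icc (-(b : ℤ)) M, N.ν ((Ψ i j).coeff (θ - d)) * R := fun j =>
    Finset.sum_nonneg fun d _ => mul_nonneg (N.nonneg _) hR
  have hC : 0 ≤ ∑ j, ∑ d ∈ Finset.Icc (-(b : ℤ)) M, N.ν ((Ψ i j).coeff (θ - d)) * R :=
    Finset.sum_nonneg fun j _ => hC0 j
  have hw1 : ∀ j, Sp (Ge (-(b : ℚ))) (w j) := by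
    intro j
    have h1 : w = Φ.mulVec (Ψ.mulVec w) := by
      rw [Matrix.mulVec_mulVec, hΦ, Matrix.one_mulVec]
    rw [h1]
    refine sp_mulVec (S := Ge (-(b : ℚ))) (T := Ge 0) (fun i j => hb (i, j)) hw.c ?_ j
    intro x hx y hy
    have := Ge_add x hx y hy
    rwa [add_zero] at this
  have e : (Ψ.mulVec w i).coeff θ = ∑ j, (Ψ i j * w j).coeff θ := by
    change (∑ j, Ψ i j * w j).coeff θ = _
    rw [coeff_sum]
  rw [e]
  refine N.sum _ _ hC fun j _ => ?_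
  rw [coeff_mul]
  refine N.sum _ _ hC fun x hx => ?_
  have h3 := (Finset.mem_antidiagonal.1 hx)
  obtain ⟨d, hd⟩ := hw.a j x.2 h3.2.1
  have h4 : -(b : ℚ) ≤ x.2 := hw1 j x.2 h3.2.1
  have h5 : -(b' : ℚ) ≤ x.1 := hb' (i, j) x.1 h3.1
  have h6 : x.1 = θ - d := by rw [← hd]; linarith [h3.2.2]
  have h7 : -(b : ℤ) ≤ d := by
    rw [hd] at h4
    exact_mod_cast h4
  have h8 : d ≤ M := by
    have : (d : ℚ) < M := by linarith
    have : d < M := by exact_mod_cast this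
    exact this.le
  rw [N.mul]
  calc N.ν ((Ψ i j).coeff x.1) * N.ν ((w j).coeff x.2) ≤ N.ν ((Ψ i j).coeff x.1) * R :=
        mul_le_mul_of_nonneg_left (hw.b j x.2) (N.nonneg _)
    _ = N.ν ((Ψ i j).coeff (θ - d)) * R := by rw [h6]
    _ ≤ ∑ d ∈ Finset.Icc (-(b : ℤ)) M, N.ν ((Ψ i j).coeff (θ - d)) * R :=
        Finset.single_le_sum (f := fun d : ℤ => N.ν ((Ψ i j).coeff (θ - d)) * R)
          (fun d _ => mul_nonneg (N.nonneg _) hR) (Finset.mem_Icc.2 ⟨h7, h8⟩)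
    _ ≤ _ := Finset.single_le_sum
          (f := fun j => ∑ d ∈ Finset.Icc (-(b : ℤ)) M, N.ν ((Ψ i j).coeff (θ - d)) * R)
          (fun j _ => hC0 j) (Finset.mem_univ j)

theorem core {p : ℕ} (N : Nu p) {Φ Ψ B : Matrix m m Hq} (hΨ : Ψ * Φ = 1)
    (hB : ∀ i j, Sp Zs (B i j)) (hBi : ∀ i j γ, IsIntegral ℤ ((B i j).coeff γ))
    (hD' : ∀ i j, hD (Φ i j) = ∑ l, B i l * Φ l j) (θ : ℚ) (hθ0 : 0 ≤ θ) (hθ : 1 < N.ν (θ : ℂ))
    (z : m → Hq) (hz : ∀ i, Sp Zs (z i)) (a : m → ℂ) (hza : ∀ i, Ψ.mulVec z i = single θ (a i))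
    (i : m) : a i = 0 := by
  obtain ⟨b', hb'⟩ := exists_Ge_fin (α := m × m) fun x => Ψ x.1 x.2
  obtain ⟨b, hb⟩ := exists_Ge_fin z
  obtain ⟨M, hM⟩ := exists_int_gt (θ + b')
  -- truncation
  set w0 : m → Hq := fun j => res (Set.Iic (M : ℚ)) (z j) with hw0
  set w1 : m → Hq := fun j => z j - w0 j with hw1
  have hw1s : ∀ j, Sp (Ge (M : ℚ)) (w1 j) := by
    intro j γ hγ
    by_contra hlt
    have h1 : γ ∈ Set.Iic (M : ℚ) := by
      have : ¬ (M : ℚ) ≤ γ := hlt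
      exact (not_le.1 this).le
    apply hγ
    change (z j - w0 j).coeff γ = 0
    rw [coeff_sub]
    change (z j).coeff γ - (res (Set.Iic (M : ℚ)) (z j)).coeff γ = 0
    rw [res_coeff_mem h1, sub_self]
  have hz2 : z = w0 + w1 := by
    ext1 j
    rw [Pi.add_apply, hw1]
    simp
  have hΨ1 : ∀ j, Sp (Ge (-(b' : ℚ) + M)) (Ψ.mulVec w1 j) :=
    sp_mulVec (fun i j => hb' (i, j)) hw1s Ge_add
  have hΨ0 : ∀ j, Ψ.mulVec w0 j = single θ (a j) - Ψ.mulVec w1 j := by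
    intro j
    rw [← hza j, hz2, Matrix.mulVec_add, Pi.add_apply]
    ring
  set R : ℝ := ∑ j, ∑ d ∈ Finset.Icc (-(b : ℤ)) M, N.ν ((z j).coeff d) with hR
  have hR1 : ∀ j, 0 ≤ ∑ d ∈ Finset.Icc (-(b : ℤ)) M, N.ν ((z j).coeff d) := fun j =>
    Finset.sum_nonneg fun d _ => N.nonneg _
  have hR0 : 0 ≤ R := Finset.sum_nonneg fun j _ => hR1 j
  have hθM : θ < -(b' : ℚ) + M := by linarith
  have hL0 : LL N Ψ R w0 := by
    refine ⟨?_, ?_, ?_⟩
    · intro j γ hγ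
      by_cases h1 : γ ∈ Set.Iic (M : ℚ)
      · change (res (Set.Iic (M : ℚ)) (z j)).coeff γ ≠ 0 at hγ
        rw [res_coeff_mem h1] at hγ
        exact hz j γ hγ
      · exact absurd (res_coeff_notMem h1) hγ
    · intro j γ
      change N.ν ((res (Set.Iic (M : ℚ)) (z j)).coeff γ) ≤ R
      by_cases h1 : γ ∈ Set.Iic (M : ℚ)
      · rw [res_coeff_mem h1]
        by_cases h2 : (z j).coeff γ = 0
        · rw [h2, N.zero]; exact hR0
        · obtain ⟨d, hd⟩ := hz j γ h2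
          have h3 : -(b : ℚ) ≤ γ := hb j γ h2
          have h4 : γ ≤ M := h1
          have h5 : -(b : ℤ) ≤ d := by rw [hd] at h3; exact_mod_cast h3
          have h6 : d ≤ M := by rw [hd] at h4; exact_mod_cast h4
          rw [hd]
          calc N.ν ((z j).coeff d) ≤ ∑ d ∈ Finset.Icc (-(b : ℤ)) M, N.ν ((z j).coeff d) :=
                Finset.single_le_sum (f := fun d : ℤ => N.ν ((z j).coeff d))
                  (fun d _ => N.nonneg _) (Finset.mem_Icc.2 ⟨h5, h6⟩)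
            _ ≤ R := Finset.single_le_sum
                (f := fun j => ∑ d ∈ Finset.Icc (-(b : ℤ)) M, N.ν ((z j).coeff d))
                (fun j _ => hR1 j) (Finset.mem_univ j)
      · rw [res_coeff_notMem h1, N.zero]; exact hR0
    · intro j
      rw [hΨ0]
      refine (Sp.single ?_ _).sub ((hΨ1 j).mono ?_)
      · exact hθ0
      · intro γ hγ
        have h1 : -(b' : ℚ) + M ≤ γ := hγ
        change 0 ≤ γ
        linarith
  have hLn : ∀ n : ℕ, LL N Ψ R ((nab B)^[n] w0) := by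
    intro n
    induction n with
    | zero => exact hL0
    | succ n ih =>
      rw [Function.iterate_succ_apply']
      exact ih.nab hΨ hB hBi hD' hR0
  have hkn : ∀ n : ℕ, (Ψ.mulVec ((nab B)^[n] w0) i).coeff θ = (θ : ℂ) ^ n * a i := by
    intro n
    induction n with
    | zero =>
      rw [Function.iterate_zero, id_eq, hΨ0, coeff_sub, coeff_single_same, pow_zero, one_mul]
      have h1 : (Ψ.mulVec w1 i).coeff θ = 0 := by
        by_contra h
        have h2 : -(b' : ℚ) + M ≤ θ := hΨ1 i θ h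
        linarith
      rw [h1, sub_zero]
    | succ n ih =>
      rw [Function.iterate_succ_apply', mulVec_nab hΨ hD']
      change (hD (Ψ.mulVec ((nab B)^[n] w0) i)).coeff θ = _
      rw [hD_coeff, ih, pow_succ]
      ring
  obtain ⟨Cst, hCst⟩ := bound N hΨ hR0 θ i
  by_contra ha
  have hpos := N.pos _ ha
  obtain ⟨n, hn⟩ := pow_unbounded_of_one_lt (Cst / N.ν (a i)) hθ
  have h1 := hCst _ (hLn n)
  rw [hkn, N.mul, N.pow] at h1
  rw [div_lt_iff₀ hpos] at hn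
  linarith

end A

open A in
/-- the exponents of a system with integral coefficients are integers -/
theorem local_main {m : Type} [Fintype m] [DecidableEq m] (Φ Ψ B : Matrix m m Hq) (hΨ : Ψ * Φ = 1)
    (hB : ∀ i j, Sp Zs (B i j)) (hBi : ∀ i j γ, IsIntegral ℤ ((B i j).coeff γ))
    (hD : ∀ i j, hD (Φ i j) = ∑ l, B i l * Φ l j) : ∀ i j, Sp Zs (Φ i j) := by
  intro i0 j0 α hα
  by_contra hZ
  have hΦ : Φ * Ψ = 1 := mul_eq_one_comm.1 hΨ
  set S : Set ℚ := {γ | γ - α ∈ Zs} with hS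
  set Z : m → Hq := fun i => res S (Φ i j0) with hZdef
  have hper : ∀ β ∈ Zs, ∀ γ, β + γ ∈ S ↔ γ ∈ S := by
    rintro _ ⟨n, rfl⟩ γ
    constructor
    · rintro ⟨k, hk⟩
      exact ⟨k - n, by push_cast; rw [← hk]; ring⟩
    · rintro ⟨k, hk⟩
      exact ⟨k + n, by push_cast; rw [← hk]; ring⟩
  have hZ1 : dv Z = B.mulVec Z := by
    ext1 i
    change Pool.Agent.N780.Rat.hD (res S (Φ i j0)) = ∑ l, B i l * res S (Φ l j0)
    rw [← res_hD, hD, res_sum]
    exact Finset.sum_congr rfl fun l _ => res_mul (hB i l) hper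
  have hc : dv (Ψ.mulVec Z) = 0 := by
    rw [← mulVec_nab hΨ hD, nab, hZ1, sub_self, Matrix.mulVec_zero]
  set a : m → ℂ := fun i => (Ψ.mulVec Z i).coeff 0 with ha
  have hca : ∀ i, Ψ.mulVec Z i = C (a i) := fun i => const_of_hD (congrFun hc i)
  -- the shift
  set θ : ℚ := 1 - Int.fract α with hθ
  have hθ0 : 0 ≤ θ := by
    have := Int.fract_lt_one α
    linarith
  have hαθ : α + θ = (⌊α⌋ + 1 : ℤ) := by
    have := Int.floor_add_fract α
    push_cast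
    linarith
  have hden : θ.den ≠ 1 := by
    intro h1
    apply hZ
    refine ⟨⌊α⌋ + 1 - θ.num, ?_⟩
    have h2 : θ = θ.num := ((Rat.den_eq_one_iff θ).1 h1).symm
    push_cast
    push_cast at hαθ
    rw [← h2]
    linarith
  set p := θ.den.minFac with hp
  have : Fact p.Prime := ⟨Nat.minFac_prime hden⟩
  obtain ⟨N⟩ := exists_nu p
  have hν : 1 < N.ν (θ : ℂ) := N.rat_gt θ (Nat.minFac_dvd _)
  have hz : ∀ i, Sp Zs (single θ (1 : ℂ) * Z i) := by
    intro i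
    refine Sp.mul (S := {θ}) (T := S) (Sp.single (S := {θ}) rfl 1) (res_sp S _) ?_
    rintro x hx y ⟨k, hk⟩
    rw [Set.mem_singleton_iff] at hx
    subst hx
    refine ⟨k + (⌊α⌋ + 1), ?_⟩
    push_cast
    push_cast at hαθ
    rw [← hk]
    linarith
  have hza : ∀ i, Ψ.mulVec (fun j => single θ (1 : ℂ) * Z j) i = single θ (a i) := by
    intro i
    have e : Ψ.mulVec (fun j => single θ (1 : ℂ) * Z j) i = single θ (1 : ℂ) * Ψ.mulVec Z i := by
      change ∑ j, Ψ i j * (single θ (1 : ℂ) * Z j) = single θ (1 : ℂ) * ∑ j, Ψ i j * Z j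
      rw [Finset.mul_sum]
      exact Finset.sum_congr rfl fun j _ => by ring
    rw [e, hca i, C_apply, single_mul_single, add_zero, one_mul]
  have ha0 : ∀ i, a i = 0 := core N hΨ hB hBi hD θ hθ0 hν _ hz a hza
  have hZ0 : Z = 0 := by
    have h1 : Z = Φ.mulVec (Ψ.mulVec Z) := by
      rw [Matrix.mulVec_mulVec, hΦ, Matrix.one_mulVec]
    have h2 : Ψ.mulVec Z = 0 := by
      ext1 i
      rw [hca i, ha0 i, map_zero]
      rfl
    rw [h1, h2, Matrix.mulVec_zero]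
  apply hα
  have h3 : (Z i0).coeff α = (Φ i0 j0).coeff α := by
    refine res_coeff_mem ?_
    exact ⟨0, by simp⟩
  rw [← h3, hZ0]
  rfl

end Pool.Agent.N780.Rat
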