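import Mathlib
import Pool.Agent.N780.R.Hah

set_option autoImplicit false

/-!
Regular points: the solutions of `s Y' = B Y`, `B` divisible by `s`, are power series.
-/

namespace Pool.Agent.N780.Rat

open HahnSeries

/-- the positive integers -/
def Ps : Set ℚ := {γ | ∃ n : ℕ, 0 < n ∧ γ = n}

theorem reg_main {m : Type} [Fintype m] (Y : m → Hq) (B : m → m → Hq)
    (hB : ∀ i j, Sp Ps (B i j)) (hY : ∀ i, hD (Y i) = ∑ j, B i j * Y j) : ∀ i, Sp Ns (Y i) := by
  classical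
  by_contra hcon
  simp only [Sp] at hcon
  push Not at hcon
  obtain ⟨i₀, γ₁, hγ₁, hγ₁N⟩ := hcon
  -- the bad exponents
  set T : Set ℚ := {γ | γ ∉ Ns ∧ ∃ i, (Y i).coeff γ ≠ 0} with hT
  have hwf : T.IsWF := by
    have h1 : (⋃ i, (Y i).support).IsWF := by
      have : (⋃ i ∈ (Finset.univ : Finset m), (Y i).support).IsWF := by
        rw [Finset.isWF_bUnion]
        exact fun i _ => (Y i).isWF_support
      simpa using this
    refine h1.mono ?_
    rintro γ ⟨_, i, hi⟩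
    exact Set.mem_iUnion.2 ⟨i, hi⟩
  have hne : T.Nonempty := ⟨γ₁, hγ₁N, i₀, hγ₁⟩
  obtain ⟨hmN, i, hi⟩ := hwf.min_mem hne
  set γ := hwf.min hne with hγ
  have h1 := congrArg (fun f => f.coeff γ) (hY i)
  simp only [hD_coeff, coeff_sum] at h1
  have h2 : ∑ j, (B i j * Y j).coeff γ = 0 := by
    refine Finset.sum_eq_zero fun j _ => ?_
    rw [coeff_mul]
    refine Finset.sum_eq_zero fun x hx => ?_
    obtain ⟨hx1, hx2, hx3⟩ := Finset.mem_antidiagonal.1 hx
    obtain ⟨n, hn, hxn⟩ := hB i j _ hx1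
    have h3 : x.2 ∈ T := by
      refine ⟨fun ⟨k, hk⟩ => hmN ⟨n + k, ?_⟩, j, hx2⟩
      rw [← hx3, hxn, hk]
      push_cast
      rfl
    have h4 : γ ≤ x.2 := hwf.min_le hne h3
    have h5 : (0 : ℚ) < n := by exact_mod_cast hn
    have h6 : x.1 + x.2 = γ := hx3
    rw [hxn] at h6
    linarith
  rw [h2] at h1
  have h3 : (γ : ℂ) ≠ 0 := by
    intro h0
    have h4 : γ = 0 := by exact_mod_cast h0
    exact hmN ⟨0, by rw [h4]; simp⟩
  exact (mul_ne_zero h3 hi) h1

end Pool.Agent.N780.Rat
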