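import Mathlib
import Pool.Agent.N780.R.Hah

set_option autoImplicit false

/-!
RP/C (helper429): the derivation `d/dX` on a finite extension of `ℂ(X)` inside the Laurent series, and its
compatibility with embeddings into Hahn series.
-/

namespace Pool.Agent.N780.Rat

open Polynomial
open scoped RatFunc

namespace Cc

/-- the coefficientwise derivative -/
noncomputable def cD (P : ℂ[X][X]) : ℂ[X][X] := P.sum fun n a => monomial n (derivative a)

theorem cD_add (P Q : ℂ[X][X]) : cD (P + Q) = cD P + cD Q :=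
  Polynomial.sum_add_index P Q _ (fun n => by simp) (fun n a b => by simp)

theorem cD_monomial (n : ℕ) (a : ℂ[X]) : cD (monomial n a) = monomial n (derivative a) :=
  Polynomial.sum_monomial_index a _ (by simp)

theorem one_zero {R : Type} [CommRing R] {δ : R → R} (hmul : ∀ a b, δ (a * b) = δ a * b + a * δ b) :
    δ 1 = 0 := by
  have h := hmul 1 1
  simp only [mul_one, one_mul] at h
  exact left_eq_add.1 h

theorem pow_rule {R : Type} [CommRing R] {δ : R → R} (hmul : ∀ a b, δ (a * b) = δ a * b + a * δ b)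
    (b : R) (n : ℕ) : δ (b ^ n) = (n : R) * b ^ (n - 1) * δ b := by
  induction n with
  | zero => rw [pow_zero, one_zero hmul]; simp
  | succ n ih =>
    rw [pow_succ, hmul, ih]
    rcases n with _ | n
    · simp
    · simp only [Nat.add_sub_cancel]
      push_cast
      ring

theorem deriv_eval {R : Type} [CommRing R] (φ : ℂ[X] →+* R) {δ : R → R}
    (hadd : ∀ a b, δ (a + b) = δ a + δ b) (hmul : ∀ a b, δ (a * b) = δ a * b + a * δ b) (w : R)
    (hφ : ∀ p, δ (φ p) = φ (derivative p) * w) (b : R) (P : ℂ[X][X]) :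
    δ (P.eval₂ φ b) = w * (cD P).eval₂ φ b + (derivative P).eval₂ φ b * δ b := by
  induction P using Polynomial.induction_on' with
  | add P Q hP hQ =>
    rw [eval₂_add, hadd, hP, hQ, cD_add, eval₂_add, derivative_add, eval₂_add]
    ring
  | monomial n a =>
    rw [eval₂_monomial, hmul, hφ, pow_rule hmul, cD_monomial, eval₂_monomial, derivative_monomial,
      eval₂_monomial, map_mul, map_natCast]
    ring

/-- a separable polynomial relation with coefficients in a domain -/
theorem exists_rel_gen {R K L : Type} [CommRing R] [IsDomain R] [Field K] [CharZero K] [Field L]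
    [Algebra R K] [IsFractionRing R K] [Algebra K L] [FiniteDimensional K L] (x : L) :
    ∃ P : R[X], P.eval₂ ((algebraMap K L).comp (algebraMap R K)) x = 0 ∧
      (derivative P).eval₂ ((algebraMap K L).comp (algebraMap R K)) x ≠ 0 := by
  have hint : IsIntegral K x := IsIntegral.of_finite K x
  have hm0 : aeval x (minpoly K x) = 0 := minpoly.aeval _ _
  have hsep : (minpoly K x).Separable := (minpoly.irreducible hint).separable
  have hm1 : aeval x (derivative (minpoly K x)) ≠ 0 := hsep.aeval_derivative_ne_zero hm0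
  rw [aeval_def] at hm0 hm1
  obtain ⟨b, hb₁, hb₂⟩ := IsLocalization.integerNormalization_spec (nonZeroDivisors R) (minpoly K x)
  refine ⟨IsLocalization.integerNormalization (nonZeroDivisors R) (minpoly K x), ?_, ?_⟩
  · rw [← eval₂_map, hb₂, ← IsScalarTower.algebraMap_smul K b (minpoly K x), eval₂_smul, hm0,
      mul_zero]
  · rw [← eval₂_map, ← derivative_map, hb₂, ← IsScalarTower.algebraMap_smul K b (minpoly K x),
      derivative_smul, eval₂_smul]
    refine mul_ne_zero ?_ hm1
    rw [Ne, map_eq_zero, FaithfulSMul.algebraMap_eq_zero_iff]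
    exact nonZeroDivisors.ne_zero hb₁

/-- the map from polynomials to the field `L` -/
noncomputable def ψ (L : IntermediateField (RatFunc ℂ) (LaurentSeries ℂ)) : ℂ[X] →+* L :=
  (algebraMap (RatFunc ℂ) L).comp (algebraMap ℂ[X] (RatFunc ℂ))

theorem exists_rel (L : IntermediateField (RatFunc ℂ) (LaurentSeries ℂ))
    [FiniteDimensional (RatFunc ℂ) L] (x : L) :
    ∃ P : ℂ[X][X], P.eval₂ (ψ L) x = 0 ∧ (derivative P).eval₂ (ψ L) x ≠ 0 :=
  exists_rel_gen (R := ℂ[X]) (K := RatFunc ℂ) (L := L) x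

theorem ψ_coe (L : IntermediateField (RatFunc ℂ) (LaurentSeries ℂ)) (p : ℂ[X]) :
    ((ψ L p : L) : LaurentSeries ℂ) = HahnSeries.ofPowerSeries ℤ ℂ (p : PowerSeries ℂ) := by
  have h := RatFunc.coe_coe p
  rw [h]
  rfl

/-- the relation for the derivative -/
theorem rel_deriv (L : IntermediateField (RatFunc ℂ) (LaurentSeries ℂ))
    (f : PowerSeries ℂ) (hf : HahnSeries.ofPowerSeries ℤ ℂ f ∈ L) (P : ℂ[X][X])
    (hP : P.eval₂ (ψ L) ⟨_, hf⟩ = 0) :
    ((((cD P).eval₂ (ψ L) ⟨_, hf⟩ : L)) : LaurentSeries ℂ) +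
      (((derivative P).eval₂ (ψ L) ⟨_, hf⟩ : L) : LaurentSeries ℂ) *
        HahnSeries.ofPowerSeries ℤ ℂ (PowerSeries.derivative ℂ f) = 0 := by
  have hval : ∀ Q : ℂ[X][X], ((Q.eval₂ (ψ L) ⟨_, hf⟩ : L) : LaurentSeries ℂ) =
      HahnSeries.ofPowerSeries ℤ ℂ (Q.eval₂ (Polynomial.coeToPowerSeries.ringHom) f) := by
    intro Q
    have h1 := Polynomial.hom_eval₂ Q (ψ L) (L.val : L →+* LaurentSeries ℂ) ⟨_, hf⟩
    have h2 := Polynomial.hom_eval₂ Q (Polynomial.coeToPowerSeries.ringHom)
      (HahnSeries.ofPowerSeries ℤ ℂ) f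
    have h3 : ((L.val : L →+* LaurentSeries ℂ)).comp (ψ L) =
        (HahnSeries.ofPowerSeries ℤ ℂ).comp (Polynomial.coeToPowerSeries.ringHom) := by
      exact RingHom.ext fun p => ψ_coe L p
    rw [h3] at h1
    exact h1.trans h2.symm
  have h0 := hval P
  rw [hP] at h0
  have h1 : P.eval₂ (Polynomial.coeToPowerSeries.ringHom) f = 0 :=
    HahnSeries.ofPowerSeries_injective (Γ := ℤ) (R := ℂ) (by rw [← h0, map_zero]; rfl)
  have h2 := deriv_eval (Polynomial.coeToPowerSeries.ringHom)
    (δ := fun g => PowerSeries.derivative ℂ g)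
    (fun a b => map_add _ a b) (fun a b => by
      rw [Derivation.leibniz]
      simp only [smul_eq_mul]
      ring) 1 (fun p => by
      rw [mul_one]
      exact PowerSeries.derivative_coe p) f P
  rw [h1, one_mul] at h2
  simp only [map_zero] at h2
  rw [hval, hval, ← map_mul, ← map_add, ← h2, map_zero]

end Cc

open Cc

/-- the derivation of a finite extension of `ℂ(X)` inside the Laurent series -/
theorem deriv_mem (L : IntermediateField (RatFunc ℂ) (LaurentSeries ℂ)) [FiniteDimensional (RatFunc ℂ) L]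
    (f : PowerSeries ℂ) (hf : HahnSeries.ofPowerSeries ℤ ℂ f ∈ L) :
    HahnSeries.ofPowerSeries ℤ ℂ (PowerSeries.derivative ℂ f) ∈ L := by
  obtain ⟨P, hP, hP'⟩ := exists_rel L ⟨_, hf⟩
  have h := rel_deriv L f hf P hP
  have h1 : HahnSeries.ofPowerSeries ℤ ℂ (PowerSeries.derivative ℂ f) =
      ((-((cD P).eval₂ (ψ L) ⟨_, hf⟩) / ((derivative P).eval₂ (ψ L) ⟨_, hf⟩) : L) :
        LaurentSeries ℂ) := by
    have h2 : (((derivative P).eval₂ (ψ L) ⟨_, hf⟩ : L) : LaurentSeries ℂ) ≠ 0 := by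
      intro h3
      exact hP' (by exact_mod_cast h3)
    push_cast
    rw [eq_div_iff h2]
    rw [mul_comm]
    exact eq_neg_of_add_eq_zero_right h
  rw [h1]
  exact SetLike.coe_mem _

/-- compatibility of the derivation with embeddings into the Hahn series -/
theorem deriv_compat (L : IntermediateField (RatFunc ℂ) (LaurentSeries ℂ))
    [FiniteDimensional (RatFunc ℂ) L] (f : PowerSeries ℂ) (hf : HahnSeries.ofPowerSeries ℤ ℂ f ∈ L)
    (σ : L →+* Hq) (ξ : Hq)
    (hσC : ∀ z : ℂ, σ (algebraMap (RatFunc ℂ) L (RatFunc.C z)) = HahnSeries.C z)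
    (hσX : σ (algebraMap (RatFunc ℂ) L RatFunc.X) = ξ) :
    hD (σ ⟨_, hf⟩) = hD ξ * σ ⟨_, deriv_mem L f hf⟩ := by
  obtain ⟨P, hP, hP'⟩ := exists_rel L ⟨_, hf⟩
  have h := rel_deriv L f hf P hP
  have h1 : (cD P).eval₂ (ψ L) ⟨_, hf⟩ + (derivative P).eval₂ (ψ L) ⟨_, hf⟩ *
      (⟨_, deriv_mem L f hf⟩ : L) = 0 := by
    apply Subtype.ext
    push_cast
    exact h
  have hφ : σ.comp (ψ L) = eval₂RingHom HahnSeries.C ξ := by
    apply Polynomial.ringHom_ext
    · intro z
      rw [RingHom.comp_apply, coe_eval₂RingHom, eval₂_C, ← hσC z]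
      rfl
    · rw [RingHom.comp_apply, coe_eval₂RingHom, eval₂_X, ← hσX, ψ, RingHom.comp_apply,
        RatFunc.algebraMap_X]
  have hev : ∀ Q : ℂ[X][X], σ (Q.eval₂ (ψ L) ⟨_, hf⟩) =
      Q.eval₂ (eval₂RingHom HahnSeries.C ξ) (σ ⟨_, hf⟩) := by
    intro Q
    rw [Polynomial.hom_eval₂, hφ]
  have h2 := deriv_eval (eval₂RingHom HahnSeries.C ξ) (δ := hD) hD_add hD_mul (hD ξ) (by
    intro p
    induction p using Polynomial.induction_on' with
    | add p q hp hq => rw [map_add, hD_add, hp, hq, derivative_add, map_add, add_mul]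
    | monomial n a =>
      rw [derivative_monomial]
      simp only [coe_eval₂RingHom, eval₂_monomial]
      rw [hD_mul, hD_C, pow_rule hD_mul, map_mul, map_natCast]
      ring) (σ ⟨_, hf⟩) P
  rw [← hev, ← hev, ← hev] at h2
  rw [hP, map_zero, hD_zero] at h2
  have h3 := congrArg σ h1
  rw [map_add, map_mul, map_zero] at h3
  have h4 : σ ((derivative P).eval₂ (ψ L) ⟨_, hf⟩) ≠ 0 := by
    rw [Ne, map_eq_zero]
    exact hP'
  apply mul_left_cancel₀ h4
  linear_combination (-1 : Hq) * h2 - hD ξ * h3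

end Pool.Agent.N780.Rat
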