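import Pool.Agent.N780.R.D0
import Pool.Agent.N780.R.Cc

set_option autoImplicit false

/-!
# RP/D: an algebraic power series which is regular at all the finite places is a polynomial (helper459)
-/

namespace Pool.Agent.N780.Rat

open HahnSeries
open scoped RatFunc
open Pool.Agent.Helper165.P1 (Pui)

namespace D

lemma iter_mem (L : IntermediateField (RatFunc ℂ) (LaurentSeries ℂ)) [FiniteDimensional (RatFunc ℂ) L]
    (f : PowerSeries ℂ) (hf : HahnSeries.ofPowerSeries ℤ ℂ f ∈ L) (m : ℕ) :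
    HahnSeries.ofPowerSeries ℤ ℂ ((PowerSeries.derivative ℂ)^[m] f) ∈ L := by
  induction m with
  | zero => exact hf
  | succ m ih =>
    rw [Function.iterate_succ_apply']
    exact deriv_mem L _ ih

lemma iter_compat (L : IntermediateField (RatFunc ℂ) (LaurentSeries ℂ))
    [FiniteDimensional (RatFunc ℂ) L] (f : PowerSeries ℂ) (hf : HahnSeries.ofPowerSeries ℤ ℂ f ∈ L)
    (σ : L →+* Hq) (ξ : Hq)
    (hσC : ∀ z : ℂ, σ (algebraMap (RatFunc ℂ) L (RatFunc.C z)) = HahnSeries.C z)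
    (hσX : σ (algebraMap (RatFunc ℂ) L RatFunc.X) = ξ) (m : ℕ) :
    hD (σ ⟨_, iter_mem L f hf m⟩) = hD ξ * σ ⟨_, iter_mem L f hf (m + 1)⟩ := by
  have h := deriv_compat L _ (iter_mem L f hf m) σ ξ hσC hσX
  have e : (⟨_, iter_mem L f hf (m + 1)⟩ : L) = ⟨_, deriv_mem L _ (iter_mem L f hf m)⟩ := by
    apply Subtype.ext
    show HahnSeries.ofPowerSeries ℤ ℂ ((PowerSeries.derivative ℂ)^[m + 1] f) =
      HahnSeries.ofPowerSeries ℤ ℂ (PowerSeries.derivative ℂ ((PowerSeries.derivative ℂ)^[m] f))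
    rw [Function.iterate_succ_apply']
  rw [e]
  exact h

/-- the images at the finite places -/
lemma fin_sp (L : IntermediateField (RatFunc ℂ) (LaurentSeries ℂ))
    [FiniteDimensional (RatFunc ℂ) L] (f : PowerSeries ℂ) (hf : HahnSeries.ofPowerSeries ℤ ℂ f ∈ L)
    (a : ℂ) (σ : L →+* Hq)
    (h1 : ∀ z : ℂ, σ (algebraMap (RatFunc ℂ) L (RatFunc.C z)) = HahnSeries.C z)
    (h2 : σ (algebraMap (RatFunc ℂ) L RatFunc.X) = HahnSeries.C a + HahnSeries.single 1 1)
    (h : Sp Ns (σ ⟨_, hf⟩)) (m : ℕ) : Sp Ns (σ ⟨_, iter_mem L f hf m⟩) := by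
  induction m with
  | zero => exact h
  | succ m ih =>
    have h3 := iter_compat L f hf σ _ h1 h2 m
    rw [hD_add, hD_C, zero_add, hD_single, Rat.cast_one, one_mul] at h3
    exact fin_step h3 ih

/-- the images at infinity -/
lemma inf_sp (L : IntermediateField (RatFunc ℂ) (LaurentSeries ℂ))
    [FiniteDimensional (RatFunc ℂ) L] (f : PowerSeries ℂ) (hf : HahnSeries.ofPowerSeries ℤ ℂ f ∈ L)
    (b : ℚ) (σ : L →+* Hq)
    (h1 : ∀ z : ℂ, σ (algebraMap (RatFunc ℂ) L (RatFunc.C z)) = HahnSeries.C z)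
    (h2 : σ (algebraMap (RatFunc ℂ) L RatFunc.X) = HahnSeries.single (-1) 1)
    (h : Sp (Ge b) (σ ⟨_, hf⟩)) (m : ℕ) : Sp (Ge (b + m)) (σ ⟨_, iter_mem L f hf m⟩) := by
  induction m with
  | zero =>
    rw [Nat.cast_zero, add_zero]
    exact h
  | succ m ih =>
    have h3 := iter_compat L f hf σ _ h1 h2 m
    have h4 : (((-1 : ℚ)) : ℂ) = -1 := by push_cast; rfl
    rw [hD_single, mul_one, h4] at h3
    have h5 := inf_step h3 ih
    refine h5.mono fun γ hγ => ?_
    change b + m + 1 ≤ γ at hγ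
    change b + (m + 1 : ℕ) ≤ γ
    push_cast
    linarith

end D

/-- RP/D: an algebraic power series which is regular at all the finite places is a polynomial -/
theorem poly_main (L : IntermediateField (RatFunc ℂ) (LaurentSeries ℂ))
    [FiniteDimensional (RatFunc ℂ) L] (f : PowerSeries ℂ) (hf : HahnSeries.ofPowerSeries ℤ ℂ f ∈ L)
    (h : ∀ (a : ℂ) (σ : L →+* Hq),
      (∀ z : ℂ, σ (algebraMap (RatFunc ℂ) L (RatFunc.C z)) = HahnSeries.C z) →
      σ (algebraMap (RatFunc ℂ) L RatFunc.X) = HahnSeries.C a + HahnSeries.single 1 1 →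
      Sp Ns (σ ⟨_, hf⟩)) :
    ∃ P : Polynomial ℂ, f = (P : PowerSeries ℂ) := by
  obtain ⟨b, hb⟩ := D.exists_bd (D.psi D.xi D.evi_inj) (⟨_, hf⟩ : L)
  obtain ⟨x, hx⟩ : ∃ x : L, x = ⟨_, D.iter_mem L f hf (b + 1)⟩ := ⟨_, rfl⟩
  obtain ⟨P, hP⟩ := D.rat_poly (Algebra.norm (RatFunc ℂ) x) (by
    intro a
    apply D.norm_sp _ x (Sp Ns) (fun u v hu hv => hu.mul hv Ns_add)
    intro σ hσ
    have h1 : ∀ z : ℂ, ((Pui ℂ).subtype.comp σ) (algebraMap (RatFunc ℂ) L (RatFunc.C z)) =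
        HahnSeries.C z := by
      intro z
      rw [RingHom.comp_apply, hσ, D.psi_C]
      rfl
    have h2 : ((Pui ℂ).subtype.comp σ) (algebraMap (RatFunc ℂ) L RatFunc.X) =
        HahnSeries.C a + HahnSeries.single 1 1 := by
      rw [RingHom.comp_apply, hσ, D.psi_X]
      rfl
    rw [hx]
    exact D.fin_sp L f hf a _ h1 h2 (h a _ h1 h2) (b + 1))
  have hP0 : P = 0 := by
    apply D.poly_zero
    have h1 := D.norm_sp (D.psi D.xi D.evi_inj) x (Sp (Ge 1)) (fun u v hu hv =>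
      (hu.mul hv Ge_add).mono fun γ hγ => by
        change (1 : ℚ) + 1 ≤ γ at hγ
        change (1 : ℚ) ≤ γ
        linarith) (by
      intro σ hσ
      have h1 : ∀ z : ℂ, ((Pui ℂ).subtype.comp σ) (algebraMap (RatFunc ℂ) L (RatFunc.C z)) =
          HahnSeries.C z := by
        intro z
        rw [RingHom.comp_apply, hσ, D.psi_C]
        rfl
      have h2 : ((Pui ℂ).subtype.comp σ) (algebraMap (RatFunc ℂ) L RatFunc.X) =
          HahnSeries.single (-1) 1 := by
        rw [RingHom.comp_apply, hσ, D.psi_X]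
        rfl
      have h3 := D.inf_sp L f hf _ _ h1 h2 (hb σ hσ) (b + 1)
      rw [hx]
      refine Sp.mono h3 fun γ hγ => ?_
      change -(b : ℚ) + (b + 1 : ℕ) ≤ γ at hγ
      change (1 : ℚ) ≤ γ
      push_cast at hγ
      linarith)
    rw [hP, D.psi_alg] at h1
    exact h1
  have hx0 : x = 0 := by
    have hn : Algebra.norm (RatFunc ℂ) x = 0 := by rw [hP, hP0, map_zero]
    exact Algebra.norm_eq_zero_iff.1 hn
  rw [hx] at hx0
  have hz : HahnSeries.ofPowerSeries ℤ ℂ ((PowerSeries.derivative ℂ)^[b + 1] f) = 0 :=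
    congrArg Subtype.val hx0
  apply D.exists_poly (m := b + 1)
  exact HahnSeries.ofPowerSeries_injective (by rw [hz, map_zero])

end Pool.Agent.N780.Rat
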