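import Mathlib
import Pool.Agent.Helper165.P1.Pui
import Pool.Agent.N780.R.Hah

set_option autoImplicit false

/-!
# RP/D: preparations (helper459)

Evaluation of polynomials at `C a + s` and at `s⁻¹`, and norms.
-/

namespace Pool.Agent.N780.Rat.D

open HahnSeries
open scoped RatFunc
open Pool.Agent.Helper165.P1 (Pui eHom eHom_coeff eHom_coeff_of_ne eHom_mem)

lemma single_mem (n : ℤ) (a : ℂ) : (single (n : ℚ) a : Hq) ∈ Pui ℂ := by
  have h : (single (n : ℚ) a : Hq) = eHom 1 one_pos (single n a) := by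
    ext q
    by_cases hq : ∃ k : ℤ, (k : ℚ) / (1 : ℕ) = q
    · obtain ⟨k, rfl⟩ := hq
      rw [eHom_coeff, coeff_single, coeff_single]
      by_cases hk : k = n
      · rw [if_pos hk, if_pos (by rw [hk]; simp)]
      · rw [if_neg hk, if_neg (by
          rw [Nat.cast_one, div_one]
          exact_mod_cast hk)]
    · push Not at hq
      rw [eHom_coeff_of_ne 1 one_pos _ q hq, coeff_single, if_neg]
      rintro rfl
      exact hq n (by simp)
  rw [h]
  exact eHom_mem _ _ _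

lemma C_mem (a : ℂ) : (C a : Hq) ∈ Pui ℂ := by
  have := single_mem 0 a
  rwa [Int.cast_zero] at this

/-- the constants -/
noncomputable def Cp : ℂ →+* Pui ℂ := (HahnSeries.C : ℂ →+* Hq).codRestrict (Pui ℂ) C_mem

lemma Cp_coe (a : ℂ) : ((Cp a : Pui ℂ) : Hq) = C a := rfl

/-- the evaluation at `ξ` -/
noncomputable def ev (ξ : Pui ℂ) : Polynomial ℂ →+* Pui ℂ := Polynomial.eval₂RingHom Cp ξ

lemma ev_C (ξ : Pui ℂ) (a : ℂ) : ev ξ (Polynomial.C a) = Cp a := by
  unfold ev
  rw [Polynomial.coe_eval₂RingHom, Polynomial.eval₂_C]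

lemma ev_X (ξ : Pui ℂ) : ev ξ Polynomial.X = ξ := by
  unfold ev
  rw [Polynomial.coe_eval₂RingHom, Polynomial.eval₂_X]

/-- `C a + s` -/
noncomputable def xa (a : ℂ) : Pui ℂ := ⟨C a + single 1 1, add_mem (C_mem a) (by
  have := single_mem 1 1
  rwa [Int.cast_one] at this)⟩

/-- `s⁻¹` -/
noncomputable def xi : Pui ℂ := ⟨single (-1) 1, by
  have := single_mem (-1) 1
  rwa [Int.cast_neg, Int.cast_one] at this⟩

lemma xa_sp (a : ℂ) : Sp Ns ((xa a : Pui ℂ) : Hq) :=
  (Sp.C_Ns a).add (Sp.single (S := Ns) (γ := 1) ⟨1, by simp⟩ 1)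

lemma ev_sp (a : ℂ) (P : Polynomial ℂ) : Sp Ns ((ev (xa a) P : Pui ℂ) : Hq) := by
  induction P using Polynomial.induction_on with
  | C z => rw [ev_C, Cp_coe]; exact Sp.C_Ns z
  | add p q hp hq =>
    rw [map_add]
    exact hp.add hq
  | monomial n z h =>
    rw [pow_succ, ← mul_assoc, map_mul, ev_X]
    exact h.mul (xa_sp a) Ns_add

lemma ev_form (a : ℂ) (P : Polynomial ℂ) : ((ev (xa a) P : Pui ℂ) : Hq) =
    C (P.eval a) + single 1 1 * ((ev (xa a) (P /ₘ (Polynomial.X - Polynomial.C a)) : Pui ℂ) : Hq) := by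
  have h := congrArg (fun p => ((ev (xa a) p : Pui ℂ) : Hq))
    (Polynomial.modByMonic_add_div P (Polynomial.X - Polynomial.C a))
  simp only [map_add, map_mul, map_sub, ev_X, ev_C, Polynomial.modByMonic_X_sub_C_eq_C_eval] at h
  rw [← h]
  push_cast
  rw [Cp_coe, Cp_coe]
  have e : ((xa a : Pui ℂ) : Hq) - C a = single 1 1 := by
    show C a + single 1 1 - C a = single 1 1
    rw [add_sub_cancel_left]
  rw [e]

lemma coeff_shift {G : Hq} (hG : Sp Ns G) : (single 1 1 * G : Hq).coeff 0 = 0 := by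
  by_contra h
  have h1 : Sp (Ge (1 + 0)) (single 1 1 * G) :=
    (Sp.single (S := Ge 1) (γ := 1) (le_refl (1 : ℚ)) 1).mul (hG.mono Ns_Ge) Ge_add
  have h2 : (1 : ℚ) + 0 ≤ 0 := h1 0 h
  norm_num at h2

lemma ev_coeff (a : ℂ) (P : Polynomial ℂ) : ((ev (xa a) P : Pui ℂ) : Hq).coeff 0 = P.eval a := by
  rw [ev_form, coeff_add, coeff_shift (ev_sp a _), add_zero, C_apply, coeff_single_same]

lemma ev_inj (a : ℂ) : Function.Injective (ev (xa a)) := by
  rw [injective_iff_map_eq_zero]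
  intro P hP
  by_contra h0
  obtain ⟨q, hq, hnd⟩ := Polynomial.exists_eq_pow_rootMultiplicity_mul_and_not_dvd P h0 a
  rw [hq, map_mul, map_pow, map_sub, ev_X, ev_C] at hP
  rcases mul_eq_zero.1 hP with h | h
  · have h1 : xa a - Cp a = 0 := (pow_eq_zero_iff (n := P.rootMultiplicity a) (by
      intro h3
      rw [h3, pow_zero] at h
      exact one_ne_zero h)).1 h
    have h2 : ((xa a - Cp a : Pui ℂ) : Hq) = single 1 1 := by
      show C a + single 1 1 - C a = single 1 1
      rw [add_sub_cancel_left]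
    rw [h1] at h2
    have h3 := congrArg (fun f : Hq => f.coeff 1) h2
    simp only [coeff_single_same] at h3
    exact zero_ne_one h3
  · apply hnd
    rw [Polynomial.dvd_iff_isRoot, Polynomial.IsRoot.def, ← ev_coeff, h]
    rfl

lemma evi_coeff (P : Polynomial ℂ) (n : ℕ) :
    ((ev xi P : Pui ℂ) : Hq).coeff (-(n : ℚ)) = P.coeff n := by
  induction P using Polynomial.induction_on' with
  | add p q hp hq =>
    rw [map_add, Polynomial.coeff_add, ← hp, ← hq]
    rfl
  | monomial k z =>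
    rw [← Polynomial.C_mul_X_pow_eq_monomial, map_mul, map_pow, ev_X, ev_C,
      Polynomial.coeff_C_mul_X_pow]
    have e : ((Cp z * xi ^ k : Pui ℂ) : Hq) = single (-(k : ℚ)) z := by
      show C z * (single (-1) 1) ^ k = _
      rw [single_pow, C_apply, single_mul_single]
      simp
    rw [e, coeff_single]
    have : (-(n : ℚ) = -(k : ℚ)) ↔ n = k := by
      rw [neg_inj]
      exact_mod_cast Iff.rfl
    simp only [this]

lemma evi_inj : Function.Injective (ev xi) := by
  rw [injective_iff_map_eq_zero]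
  intro P hP
  ext n
  rw [← evi_coeff, hP]
  rfl

/-- the embedding of the rational functions -/
noncomputable def psi (ξ : Pui ℂ) (h : Function.Injective (ev ξ)) : RatFunc ℂ →+* Pui ℂ :=
  IsFractionRing.lift h

lemma psi_alg (ξ : Pui ℂ) (h : Function.Injective (ev ξ)) (P : Polynomial ℂ) :
    psi ξ h (algebraMap (Polynomial ℂ) (RatFunc ℂ) P) = ev ξ P :=
  IsFractionRing.lift_algebraMap h P

lemma psi_C (ξ : Pui ℂ) (h : Function.Injective (ev ξ)) (z : ℂ) : psi ξ h (RatFunc.C z) = Cp z := by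
  rw [← RatFunc.algebraMap_C, psi_alg, ev_C]

lemma psi_X (ξ : Pui ℂ) (h : Function.Injective (ev ξ)) : psi ξ h RatFunc.X = ξ := by
  rw [← RatFunc.algebraMap_X, psi_alg, ev_X]

/-- norms are products of conjugates -/
lemma norm_sp {L : Type} [Field L] [Algebra (RatFunc ℂ) L] [FiniteDimensional (RatFunc ℂ) L]
    (ψ : RatFunc ℂ →+* Pui ℂ) (x : L) (p : Hq → Prop) (hp : ∀ a b, p a → p b → p (a * b))
    (hσ : ∀ σ : L →+* Pui ℂ, (∀ r, σ (algebraMap (RatFunc ℂ) L r) = ψ r) →
      p ((σ x : Pui ℂ) : Hq)) :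
    p ((ψ (Algebra.norm (RatFunc ℂ) x) : Pui ℂ) : Hq) := by
  let _ : Algebra (RatFunc ℂ) (Pui ℂ) := ψ.toAlgebra
  have h := Algebra.norm_eq_prod_embeddings (RatFunc ℂ) (Pui ℂ) x
  have h1 : ψ (Algebra.norm (RatFunc ℂ) x) = algebraMap (RatFunc ℂ) (Pui ℂ)
    (Algebra.norm (RatFunc ℂ) x) := rfl
  rw [h1, h]
  have h2 : ((∏ σ : L →ₐ[RatFunc ℂ] Pui ℂ, σ x : Pui ℂ) : Hq) =
      ∏ σ : L →ₐ[RatFunc ℂ] Pui ℂ, ((σ x : Pui ℂ) : Hq) := map_prod (Pui ℂ).subtype _ _
  rw [h2]
  apply Finset.prod_induction_nonempty _ p hp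
  · exact ⟨IsAlgClosed.lift, Finset.mem_univ _⟩
  · intro σ _
    exact hσ σ.toRingHom fun r => σ.commutes r

/-- the conjugates have bounded denominators -/
lemma exists_bd {L : Type} [Field L] [Algebra (RatFunc ℂ) L] [FiniteDimensional (RatFunc ℂ) L]
    (ψ : RatFunc ℂ →+* Pui ℂ) (x : L) : ∃ b : ℕ, ∀ σ : L →+* Pui ℂ,
      (∀ r, σ (algebraMap (RatFunc ℂ) L r) = ψ r) → Sp (Ge (-(b : ℚ))) ((σ x : Pui ℂ) : Hq) := by
  let _ : Algebra (RatFunc ℂ) (Pui ℂ) := ψ.toAlgebra
  obtain ⟨b, hb⟩ := exists_Ge_fin fun σ : L →ₐ[RatFunc ℂ] Pui ℂ => ((σ x : Pui ℂ) : Hq)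
  refine ⟨b, fun σ hσ => ?_⟩
  exact hb { σ with commutes' := hσ }

/-- a rational function whose images at all finite places are regular is a polynomial -/
lemma rat_poly (r : RatFunc ℂ) (h : ∀ a, Sp Ns ((psi (xa a) (ev_inj a) r : Pui ℂ) : Hq)) :
    ∃ P : Polynomial ℂ, r = algebraMap _ _ P := by
  have hcop := RatFunc.isCoprime_num_denom r
  have hden : r * algebraMap _ _ r.denom = algebraMap _ _ r.num := by
    have h1 := RatFunc.num_div_denom r
    have h2 : algebraMap (Polynomial ℂ) (RatFunc ℂ) r.denom ≠ 0 := by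
      rw [Ne, FaithfulSMul.algebraMap_eq_zero_iff]
      exact r.denom_ne_zero
    have h3 := div_mul_cancel₀ (algebraMap (Polynomial ℂ) (RatFunc ℂ) r.num) h2
    rw [h1] at h3
    exact h3
  have hdeg : r.denom.natDegree = 0 := by
    by_contra hd
    obtain ⟨a, ha⟩ := IsAlgClosed.exists_root r.denom (by
      intro h0
      exact hd (Polynomial.natDegree_eq_of_degree_eq_some h0))
    have h1 := congrArg (fun t => ((psi (xa a) (ev_inj a) t : Pui ℂ) : Hq)) hden
    simp only [map_mul, psi_alg] at h1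
    have h2 : ((psi (xa a) (ev_inj a) r : Pui ℂ) : Hq) * ((ev (xa a) r.denom : Pui ℂ) : Hq) =
        ((ev (xa a) r.num : Pui ℂ) : Hq) := h1
    rw [ev_form a r.denom, Polynomial.IsRoot.def.1 ha, map_zero, zero_add] at h2
    have h3 := congrArg (fun f : Hq => f.coeff 0) h2
    simp only [ev_coeff] at h3
    rw [← mul_assoc, mul_comm _ (single 1 1), mul_assoc,
      coeff_shift ((h a).mul (ev_sp a _) Ns_add)] at h3
    obtain ⟨u, v, huv⟩ := hcop
    have h4 := congrArg (Polynomial.eval a) huv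
    rw [Polynomial.eval_add, Polynomial.eval_mul, Polynomial.eval_mul, ← h3,
      Polynomial.IsRoot.def.1 ha, mul_zero, mul_zero, add_zero, Polynomial.eval_one] at h4
    exact zero_ne_one h4
  have h1 : r.denom = 1 := (Polynomial.Monic.natDegree_eq_zero (RatFunc.monic_denom r)).1 hdeg
  refine ⟨r.num, ?_⟩
  rw [h1, map_one, mul_one] at hden
  exact hden

/-- a polynomial which vanishes at infinity is zero -/
lemma poly_zero {P : Polynomial ℂ} (h : Sp (Ge 1) ((ev xi P : Pui ℂ) : Hq)) : P = 0 := by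
  ext n
  rw [Polynomial.coeff_zero, ← evi_coeff]
  by_contra h0
  have h1 : (1 : ℚ) ≤ -(n : ℚ) := h _ h0
  have h2 : (0 : ℚ) ≤ n := Nat.cast_nonneg _
  linarith

/-- power series with a vanishing derivative of some order -/
lemma ps_poly (m : ℕ) : ∀ f : PowerSeries ℂ, (PowerSeries.derivative ℂ)^[m] f = 0 →
    ∀ n, m ≤ n → PowerSeries.coeff n f = 0 := by
  induction m with
  | zero =>
    intro f hf n _
    rw [Function.iterate_zero, id] at hf
    rw [hf, map_zero]
  | succ m ih =>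
    intro f hf n hn
    rw [Function.iterate_succ_apply] at hf
    obtain ⟨k, rfl⟩ : ∃ k, n = k + 1 := ⟨n - 1, by omega⟩
    have h1 := ih _ hf k (by omega)
    rw [PowerSeries.coeff_derivative] at h1
    rcases mul_eq_zero.1 h1 with h2 | h2
    · exact h2
    · exfalso
      have : ((k : ℂ) + 1) ≠ 0 := by exact_mod_cast Nat.succ_ne_zero k
      exact this h2

lemma exists_poly {f : PowerSeries ℂ} {m : ℕ} (h : (PowerSeries.derivative ℂ)^[m] f = 0) :
    ∃ P : Polynomial ℂ, f = (P : PowerSeries ℂ) := by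
  refine ⟨PowerSeries.trunc m f, ?_⟩
  ext n
  rw [Polynomial.coeff_coe, PowerSeries.coeff_trunc]
  split_ifs with hn
  · rfl
  · exact ps_poly m f h n (by omega)

/-- the derivative at a finite place -/
lemma fin_step {u v : Hq} (h : hD u = single 1 1 * v) (hu : Sp Ns u) : Sp Ns v := by
  intro γ hγ
  have h1 := congrArg (fun f : Hq => f.coeff (γ + 1)) h
  simp only [hD_coeff] at h1
  rw [coeff_single_mul_add, one_mul] at h1
  have h2 : u.coeff (γ + 1) ≠ 0 := by
    intro h0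
    rw [h0, mul_zero] at h1
    exact hγ h1.symm
  have h3 : ((γ + 1 : ℚ) : ℂ) ≠ 0 := by
    intro h0
    rw [h0, zero_mul] at h1
    exact hγ h1.symm
  obtain ⟨n, hn⟩ := hu _ h2
  have hn0 : n ≠ 0 := by
    rintro rfl
    apply h3
    rw [hn]
    simp
  refine ⟨n - 1, ?_⟩
  have : ((n - 1 : ℕ) : ℚ) = (n : ℚ) - 1 := by
    rw [Nat.cast_sub (by omega)]
    simp
  rw [this]
  linarith

/-- the derivative at infinity -/
lemma inf_step {u v : Hq} {b : ℚ} (h : hD u = single (-1) (-1) * v) (hu : Sp (Ge b) u) :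
    Sp (Ge (b + 1)) v := by
  intro γ hγ
  have h1 := congrArg (fun f : Hq => f.coeff (γ + -1)) h
  simp only [hD_coeff] at h1
  rw [coeff_single_mul_add] at h1
  have h2 : u.coeff (γ + -1) ≠ 0 := by
    intro h0
    rw [h0, mul_zero] at h1
    exact mul_ne_zero (neg_ne_zero.2 one_ne_zero) hγ h1.symm
  have h3 : b ≤ γ + -1 := hu _ h2
  change b + 1 ≤ γ
  linarith

end Pool.Agent.N780.Rat.D
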