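import Mathlib
import Pool.Agent.N780.Sys
import Pool.Agent.N780.R.B
import Pool.Agent.N780.R.A
import Pool.Agent.N780.R.Cc
import Pool.Agent.N780.R.D

set_option autoImplicit false

/-!
The system at the points of the line, after an embedding into the Hahn series.
-/

namespace Pool.Agent.N780.Rat

open PowerSeries
open scoped RatFunc

/-- power series as Hahn series with rational exponents -/
noncomputable def oH : ℂ⟦X⟧ →+* Hq := HahnSeries.ofPowerSeries ℚ ℂ

theorem oH_coeff (f : ℂ⟦X⟧) (n : ℕ) : (oH f).coeff (n : ℚ) = coeff n f :=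
  HahnSeries.ofPowerSeries_apply_coeff f n

theorem oH_coeff_of (f : ℂ⟦X⟧) {γ : ℚ} (h : γ ∉ Ns) : (oH f).coeff γ = 0 := by
  unfold oH
  rw [HahnSeries.ofPowerSeries_apply]
  refine HahnSeries.embDomain_of_notMem_range fun ⟨n, hn⟩ => h ⟨n, hn.symm⟩

theorem oH_sp (f : ℂ⟦X⟧) : Sp Ns (oH f) := by
  intro γ hγ
  by_contra h
  exact hγ (oH_coeff_of f h)

theorem oH_X : oH X = HahnSeries.single 1 1 := HahnSeries.ofPowerSeries_X

theorem oH_C (z : ℂ) : oH (C z) = HahnSeries.C z := HahnSeries.ofPowerSeries_C z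

/-- the variable -/
noncomputable def vs : Hq := HahnSeries.single 1 1

theorem hD_vs : hD vs = vs := by
  unfold vs
  rw [hD_single]
  simp

theorem vs_pow (k : ℕ) : vs ^ k = HahnSeries.single (k : ℚ) 1 := by
  unfold vs
  rw [HahnSeries.single_pow]
  simp

theorem vs_ne : vs ≠ 0 := by
  unfold vs
  exact HahnSeries.single_ne_zero one_ne_zero

section

variable (L : IntermediateField (RatFunc ℂ) (LaurentSeries ℂ))

/-- integer polynomials in `x = t + c` as elements of `L` -/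
noncomputable def el (c : ℂ) : Polynomial ℤ →+* L :=
  (algebraMap (RatFunc ℂ) L).comp
    (Polynomial.eval₂RingHom (Int.castRingHom (RatFunc ℂ)) (RatFunc.X + RatFunc.C c))

theorem toL_algebraMap (P : Polynomial ℂ) :
    algebraMap (RatFunc ℂ) (LaurentSeries ℂ) (algebraMap (Polynomial ℂ) (RatFunc ℂ) P) =
      toL (P : ℂ⟦X⟧) := RatFunc.coe_coe P |>.symm

theorem coe_el (c : ℂ) (P : Polynomial ℤ) : ((el L c P : L) : LaurentSeries ℂ) = toL (sh c P) := by
  have h : (L.val : L →+* LaurentSeries ℂ).comp (el L c) = toL.comp (sh c) := by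
    refine Polynomial.ringHom_ext' (RingHom.ext_int _ _) ?_
    rw [RingHom.comp_apply, RingHom.comp_apply, sh_X]
    unfold el
    rw [RingHom.comp_apply, Polynomial.coe_eval₂RingHom, Polynomial.eval₂_X]
    change algebraMap (RatFunc ℂ) (LaurentSeries ℂ) (RatFunc.X + RatFunc.C c) = _
    have h1 := toL_algebraMap (Polynomial.X + Polynomial.C c)
    rw [map_add, RatFunc.algebraMap_X, RatFunc.algebraMap_C] at h1
    rw [h1]
    simp
  exact RingHom.congr_fun h P

/-- `σ` lies over the point `a` -/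
structure Over (a : ℂ) (σ : L →+* Hq) : Prop where
  hC : ∀ z : ℂ, σ (algebraMap (RatFunc ℂ) L (RatFunc.C z)) = HahnSeries.C z
  hX : σ (algebraMap (RatFunc ℂ) L RatFunc.X) = HahnSeries.C a + HahnSeries.single 1 1

variable {L}

theorem Over.el {a : ℂ} {σ : L →+* Hq} (h : Over L a σ) (c : ℂ) (P : Polynomial ℤ) :
    σ (el L c P) = oH (sh (a + c) P) := by
  have h1 : σ.comp (Rat.el L c) = oH.comp (sh (a + c)) := by
    refine Polynomial.ringHom_ext' (RingHom.ext_int _ _) ?_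
    rw [RingHom.comp_apply, RingHom.comp_apply, sh_X]
    unfold Rat.el
    rw [RingHom.comp_apply, Polynomial.coe_eval₂RingHom, Polynomial.eval₂_X, map_add, map_add, h.hC,
      h.hX, map_add, oH_X, oH_C, map_add]
    ring
  exact RingHom.congr_fun h1 P

theorem Over.hDξ {a : ℂ} {σ : L →+* Hq} (h : Over L a σ) [FiniteDimensional (RatFunc ℂ) L] (f : ℂ⟦X⟧)
    (hf : toL f ∈ L) (hf' : toL (d⁄dX ℂ f) ∈ L) : hD (σ ⟨_, hf⟩) = vs * σ ⟨_, hf'⟩ := by
  have h1 := deriv_compat L f hf σ _ h.hC h.hX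
  refine h1.trans ?_
  rw [hD_add, hD_C, zero_add]
  congr 1
  exact hD_vs

/-- the system at the point `a` -/
theorem Over.sys {ι : Type} [Fintype ι] [DecidableEq ι] {a : ℂ} {σ : L →+* Hq} (h : Over L a σ)
    [FiniteDimensional (RatFunc ℂ) L] (c : ℂ) (q : Polynomial ℤ) (A : Matrix ι ι (Polynomial ℤ))
    (y : ι → ℂ⟦X⟧) (hy : ∀ i, sh c q * d⁄dX ℂ (y i) = ∑ j, sh c (A i j) * y j)
    (hL : ∀ i, toL (y i) ∈ L) (i : ι) :
    oH (sh (a + c) q) * hD (σ ⟨_, hL i⟩) =
      vs * ∑ j, oH (sh (a + c) (A i j)) * σ ⟨_, hL j⟩ := by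
  have hf' : toL (d⁄dX ℂ (y i)) ∈ L := deriv_mem L (y i) (hL i)
  rw [h.hDξ (y i) (hL i) hf']
  have h1 : Rat.el L c q * ⟨_, hf'⟩ = ∑ j, Rat.el L c (A i j) * (⟨_, hL j⟩ : L) := by
    have h2 : ((∑ j, Rat.el L c (A i j) * (⟨_, hL j⟩ : L) : L) : LaurentSeries ℂ) =
        ∑ j, ((Rat.el L c (A i j) : L) : LaurentSeries ℂ) * toL (y j) := by
      rw [← IntermediateField.coe_val, map_sum]
      rfl
    refine Subtype.ext (Eq.trans ?_ h2.symm)
    change ((Rat.el L c q : L) : LaurentSeries ℂ) * toL (d⁄dX ℂ (y i)) = _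
    rw [coe_el, ← map_mul, hy i, map_sum]
    exact Finset.sum_congr rfl fun j _ => by rw [map_mul, coe_el]
  have h3 := congrArg σ h1
  rw [map_mul, map_sum, h.el] at h3
  simp only [map_mul, h.el] at h3
  rw [← h3]
  ring

end

end Pool.Agent.N780.Rat
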