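import Mathlib
import Pool.Agent.N780.R.E1

set_option autoImplicit false

/-!
Regular points, the points `0` and `1`, finiteness of the embeddings.
-/

namespace Pool.Agent.N780.Rat

open PowerSeries
open scoped RatFunc

variable {L : IntermediateField (RatFunc ℂ) (LaurentSeries ℂ)}

/-- the polynomial `x (1 - x)` -/
noncomputable def q₀ : Polynomial ℤ := Polynomial.X * (1 - Polynomial.X)

theorem Over.reg [FiniteDimensional (RatFunc ℂ) L] {ι : Type} [Fintype ι] [DecidableEq ι] {a : ℂ}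
    {σ : L →+* Hq} (h : Over L a σ) (c : ℂ) (q : Polynomial ℤ) (hb : coeff 0 (sh (a + c) q) ≠ 0)
    (A : Matrix ι ι (Polynomial ℤ))
    (y : ι → ℂ⟦X⟧) (hy : ∀ i, sh c q * d⁄dX ℂ (y i) = ∑ j, sh c (A i j) * y j)
    (hL : ∀ i, toL (y i) ∈ L) (i : ι) : Sp Ns (σ ⟨_, hL i⟩) := by
  obtain ⟨w, hw⟩ : ∃ w : ℂ⟦X⟧, w * sh (a + c) q = 1 := by
    refine ⟨(sh (a + c) q)⁻¹, PowerSeries.inv_mul_cancel _ ?_⟩
    rwa [coeff_zero_eq_constantCoeff_apply] at hb
  refine reg_main (fun i => σ ⟨_, hL i⟩) (fun i j => vs * oH (w * sh (a + c) (A i j))) ?_ ?_ i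
  · intro i j
    refine Sp.mul (S := {1}) (T := Ns) ?_ (oH_sp _) ?_
    · exact Sp.single (Set.mem_singleton _) 1
    · rintro _ rfl _ ⟨n, rfl⟩
      exact ⟨n + 1, Nat.succ_pos n, by push_cast; ring⟩
  · intro i
    have h1 := h.sys c q A y hy hL i
    calc hD (σ ⟨_, hL i⟩) = oH w * (oH (sh (a + c) q) * hD (σ ⟨_, hL i⟩)) := by
          rw [← mul_assoc, ← map_mul, hw, map_one, one_mul]
      _ = _ := by
          rw [h1, Finset.mul_sum, Finset.mul_sum]
          refine Finset.sum_congr rfl fun j _ => ?_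
          rw [map_mul]
          ring

/-- integer power series -/
noncomputable def mz : ℤ⟦X⟧ →+* ℂ⟦X⟧ := PowerSeries.map (Int.castRingHom ℂ)

/-- expansion at an integer -/
noncomputable def shZ (b : ℤ) : Polynomial ℤ →+* ℤ⟦X⟧ :=
  Polynomial.eval₂RingHom (Int.castRingHom ℤ⟦X⟧) (X + C b)

theorem mz_shZ (b : ℤ) (P : Polynomial ℤ) : mz (shZ b P) = sh (b : ℂ) P := by
  have h : mz.comp (shZ b) = sh (b : ℂ) := by
    refine Polynomial.ringHom_ext' (RingHom.ext_int _ _) ?_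
    rw [RingHom.comp_apply, sh_X]
    unfold shZ mz
    rw [Polynomial.coe_eval₂RingHom, Polynomial.eval₂_X, map_add, PowerSeries.map_X, PowerSeries.map_C]
    simp
  exact RingHom.congr_fun h P

theorem oH_mz_int (k : ℚ) (hk : k ∈ Zs) (f : ℤ⟦X⟧) (γ : ℚ) :
    IsIntegral ℤ ((HahnSeries.single k (1 : ℂ) * oH (mz f)).coeff γ) := by
  rw [HahnSeries.coeff_single_mul, one_mul]
  by_cases h : γ - k ∈ Ns
  · obtain ⟨n, hn⟩ := h
    rw [hn, oH_coeff]
    unfold mz
    rw [PowerSeries.coeff_map]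
    exact isIntegral_algebraMap (R := ℤ) (A := ℂ)
  · rw [oH_coeff_of _ h]
    exact isIntegral_zero

/-- a singular point where the system is integral -/
theorem Over.sing [FiniteDimensional (RatFunc ℂ) L] {ι : Type} [Fintype ι] [DecidableEq ι] {a : ℂ}
    {σ : L →+* Hq} (h : Over L a σ) (c : ℂ) (q₁ : Polynomial ℤ) (b : ℤ) (hb : a + c = b)
    (u v : ℤ⟦X⟧) (hq : shZ b q₁ = X * u) (huv : v * u = 1) (k : ℕ)
    (A : Matrix ι ι (Polynomial ℤ))
    (Φ : Matrix ι ι ℂ⟦X⟧)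
    (hy : ∀ i j, sh c (q₁ ^ k) * d⁄dX ℂ (Φ i j) = ∑ l, sh c (A i l) * Φ l j)
    (hΦ : Φ.det ≠ 0)
    (hL : ∀ i j, toL (Φ i j) ∈ L) (i j : ι) : Sp Zs (σ ⟨_, hL i j⟩) := by
  -- the matrix over `L`
  set ΦL : Matrix ι ι L := fun i j => ⟨toL (Φ i j), hL i j⟩ with hΦL
  have hdet : ΦL.det ≠ 0 := by
    intro h0
    have h1 : toL Φ.det = 0 := by
      have h2 := congrArg (L.val : L →+* LaurentSeries ℂ) h0
      rw [RingHom.map_det, map_zero] at h2
      rw [RingHom.map_det]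
      rw [← h2]
      rfl
    exact hΦ (toL_inj (h1.trans (map_zero _).symm))
  have hdet2 : (σ.mapMatrix ΦL).det ≠ 0 := by
    rw [← RingHom.map_det]
    exact (map_ne_zero σ).2 hdet
  have hk : (1 - (k : ℚ)) ∈ Zs := ⟨1 - (k : ℤ), by push_cast; ring⟩
  refine local_main (σ.mapMatrix ΦL) (σ.mapMatrix ΦL)⁻¹
    (fun i l => HahnSeries.single (1 - (k : ℚ)) (1 : ℂ) * oH (mz (v ^ k * shZ b (A i l)))) ?_ ?_ ?_ ?_ i j
  · exact Matrix.nonsing_inv_mul _ (isUnit_iff_ne_zero.2 hdet2)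
  · intro i j
    exact Sp.mul (Sp.single hk 1) ((oH_sp _).mono Ns_Zs) Zs_add
  · intro i j γ
    exact oH_mz_int _ hk _ γ
  · intro i j
    have h1 := h.sys c (q₁ ^ k) A (fun l => Φ l j) (fun i => hy i j) (fun l => hL l j) i
    rw [hb] at h1
    have e1 : oH (sh (b : ℂ) (q₁ ^ k)) = vs ^ k * oH (mz u) ^ k := by
      rw [map_pow, ← mz_shZ, hq, map_mul, mul_pow, map_mul, map_pow, map_pow]
      congr 2
      unfold mz
      rw [PowerSeries.map_X, oH_X]
      rfl
    have e2 : HahnSeries.single (1 - (k : ℚ)) (1 : ℂ) * vs ^ k = vs := by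
      rw [vs_pow, HahnSeries.single_mul_single]
      unfold vs
      congr 1 <;> simp
    have e3 : oH (mz v) ^ k * oH (mz u) ^ k = 1 := by
      rw [← mul_pow, ← map_mul, ← map_mul, huv, map_one, map_one, one_pow]
    have e4 : vs ^ k ≠ 0 := pow_ne_zero _ vs_ne
    refine mul_left_cancel₀ e4 ?_
    change vs ^ k * hD (σ ⟨_, hL i j⟩) = _
    calc vs ^ k * hD (σ ⟨_, hL i j⟩)
        = oH (mz v) ^ k * (oH (sh (b : ℂ) (q₁ ^ k)) * hD (σ ⟨_, hL i j⟩)) := by
          rw [e1]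
          linear_combination (-(vs ^ k * hD (σ ⟨_, hL i j⟩))) * e3
      _ = _ := by
          rw [h1, Finset.mul_sum, Finset.mul_sum, Finset.mul_sum]
          refine Finset.sum_congr rfl fun l _ => ?_
          rw [map_mul mz, map_mul oH, map_pow mz, map_pow oH, mz_shZ]
          change _ = vs ^ k * (HahnSeries.single (1 - (k : ℚ)) (1 : ℂ) *
            (oH (mz v) ^ k * oH (sh (b : ℂ) (A i l))) * σ ⟨_, hL l j⟩)
          linear_combination (-(oH (mz v) ^ k * oH (sh (b : ℂ) (A i l)) * σ ⟨_, hL l j⟩)) * e2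

/-- there are finitely many embeddings over a point -/
theorem finite_over (L : IntermediateField (RatFunc ℂ) (LaurentSeries ℂ))
    [FiniteDimensional (RatFunc ℂ) L] (a : ℂ) : {σ : L →+* Hq | Over L a σ}.Finite := by
  by_cases hne : ∃ σ, Over L a σ
  · obtain ⟨σ₀, h₀⟩ := hne
    have key : ∀ σ, Over L a σ → σ.comp (algebraMap (RatFunc ℂ) L) = σ₀.comp (algebraMap (RatFunc ℂ) L) := by
      intro σ hσ
      refine IsFractionRing.ringHom_ext (A := Polynomial ℂ) fun P => ?_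
      have h1 : (σ.comp (algebraMap (RatFunc ℂ) L)).comp (algebraMap (Polynomial ℂ) (RatFunc ℂ)) =
          (σ₀.comp (algebraMap (RatFunc ℂ) L)).comp (algebraMap (Polynomial ℂ) (RatFunc ℂ)) := by
        refine Polynomial.ringHom_ext (fun z => ?_) ?_
        · simp only [RingHom.comp_apply, RatFunc.algebraMap_C]
          rw [hσ.hC, h₀.hC]
        · simp only [RingHom.comp_apply, RatFunc.algebraMap_X]
          rw [hσ.hX, h₀.hX]
      exact RingHom.congr_fun h1 P
    letI : Algebra (RatFunc ℂ) Hq := (σ₀.comp (algebraMap (RatFunc ℂ) L)).toAlgebra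
    have hfin : Finite (L →ₐ[RatFunc ℂ] Hq) := inferInstance
    refine (Set.finite_range fun τ : L →ₐ[RatFunc ℂ] Hq => (τ : L →+* Hq)).subset ?_
    intro σ hσ
    refine ⟨{ toRingHom := σ, commutes' := fun r => ?_ }, ?_⟩
    · exact RingHom.congr_fun (key σ hσ) r
    · rfl
  · push Not at hne
    have : {σ : L →+* Hq | Over L a σ} = ∅ := Set.eq_empty_of_forall_notMem hne
    rw [this]
    exact Set.finite_empty

end Pool.Agent.N780.Rat
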