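import Mathlib
import Pool.Agent.N780.R.E2

set_option autoImplicit false

/-!
Integral systems on the thrice punctured line with algebraic solutions have rational solutions.
-/

namespace Pool.Agent.N780.Rat

open PowerSeries
open scoped RatFunc

variable {L : IntermediateField (RatFunc ℂ) (LaurentSeries ℂ)}

/-- multiplication by a high power of the variable -/
theorem sp_shift {f : Hq} (hf : Sp Zs f) {b M : ℕ} (hb : Sp (Ge (-(b : ℚ))) f) (hM : b ≤ M) :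
    Sp Ns (vs ^ M * f) := by
  intro γ hγ
  rw [vs_pow, HahnSeries.coeff_single_mul, one_mul] at hγ
  obtain ⟨n, hn⟩ := hf _ hγ
  have h1 : -(b : ℚ) ≤ γ - M := hb _ hγ
  have h2 : γ = ((n + M : ℤ) : ℚ) := by push_cast; linarith
  have h3 : 0 ≤ n + (M : ℤ) := by
    have h4 : (0 : ℚ) ≤ ((n + M : ℤ) : ℚ) := by
      rw [← h2]
      have : (b : ℚ) ≤ M := by exact_mod_cast hM
      linarith
    exact_mod_cast h4
  exact ⟨(n + (M : ℤ)).toNat, by
    rw [h2]
    have : ((n + (M : ℤ)).toNat : ℤ) = n + M := Int.toNat_of_nonneg h3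
    exact_mod_cast this.symm⟩

theorem sh_q₀ (b : ℂ) : sh b q₀ = (X + C b) * (1 - (X + C b)) := by
  unfold q₀
  rw [map_mul, map_sub, map_one, sh_X]

theorem shZ_q₀_zero : shZ 0 q₀ = X * (1 - X) := by
  unfold shZ q₀
  simp

theorem shZ_q₀_one : shZ 1 q₀ = X * (-(1 + X)) := by
  unfold shZ q₀
  simp only [Polynomial.coe_eval₂RingHom, Polynomial.eval₂_mul, Polynomial.eval₂_sub,
    Polynomial.eval₂_X, Polynomial.eval₂_one, map_one]
  ring

theorem exists_uv (b : ℤ) (hb : b = 0 ∨ b = 1) : ∃ u v : ℤ⟦X⟧, shZ b q₀ = X * u ∧ v * u = 1 := by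
  have key : ∀ u : ℤ⟦X⟧, IsUnit (constantCoeff u) → ∃ v, v * u = 1 := by
    intro u hu
    obtain ⟨w, hw⟩ := (PowerSeries.isUnit_iff_constantCoeff.2 hu)
    exact ⟨(w⁻¹ : (ℤ⟦X⟧)ˣ), by rw [← hw]; exact w.inv_mul⟩
  rcases hb with rfl | rfl
  · obtain ⟨v, hv⟩ := key (1 - X) (by simp)
    exact ⟨_, v, shZ_q₀_zero, hv⟩
  · obtain ⟨v, hv⟩ := key (-(1 + X)) (by simp)
    exact ⟨_, v, shZ_q₀_one, hv⟩

/-- integral systems whose solutions are algebraic have rational solutions -/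
theorem rational_of_mem [FiniteDimensional (RatFunc ℂ) L] {ι : Type} [Fintype ι] [DecidableEq ι]
    (c : ℂ) (hc0 : c ≠ 0) (hc1 : c ≠ 1) (k : ℕ) (A : Matrix ι ι (Polynomial ℤ))
    (hL : ∀ y : ι → ℂ⟦X⟧, (∀ i, sh c (q₀ ^ k) * d⁄dX ℂ (y i) = ∑ j, sh c (A i j) * y j) →
      ∀ i, toL (y i) ∈ L) :
    ∃ M : ℕ, ∀ y : ι → ℂ⟦X⟧, (∀ i, sh c (q₀ ^ k) * d⁄dX ℂ (y i) = ∑ j, sh c (A i j) * y j) →
      ∀ i, ∃ P : Polynomial ℂ, sh c q₀ ^ M * y i = (P : ℂ⟦X⟧) := by
  -- the fundamental matrix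
  have hq0 : coeff 0 (sh c q₀) ≠ 0 := by
    rw [sh_q₀, c0_mul, map_sub, map_add, coeff_zero_X, coeff_zero_C]
    have h1 : coeff 0 (1 : ℂ⟦X⟧) = 1 := by simp
    rw [h1, zero_add]
    exact mul_ne_zero hc0 (sub_ne_zero.2 hc1.symm)
  obtain ⟨w, hw⟩ : ∃ w : ℂ⟦X⟧, w * sh c q₀ = 1 := by
    refine ⟨(sh c q₀)⁻¹, PowerSeries.inv_mul_cancel _ ?_⟩
    rwa [coeff_zero_eq_constantCoeff_apply] at hq0
  set G : Matrix ι ι ℂ⟦X⟧ := fun i j => w ^ k * sh c (A i j) with hG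
  have hqw : w ^ k * sh c (q₀ ^ k) = 1 := by rw [map_pow, ← mul_pow, hw, one_pow]
  have hsolG : ∀ y : ι → ℂ⟦X⟧, (∀ i, sh c (q₀ ^ k) * d⁄dX ℂ (y i) = ∑ j, sh c (A i j) * y j) →
      ∀ i, d⁄dX ℂ (y i) = ∑ j, G i j * y j := by
    intro y hy i
    calc d⁄dX ℂ (y i) = w ^ k * (sh c (q₀ ^ k) * d⁄dX ℂ (y i)) := by
          rw [← mul_assoc, hqw, one_mul]
      _ = _ := by
          rw [hy i, Finset.mul_sum]
          exact Finset.sum_congr rfl fun j _ => by rw [hG]; ring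
  set Φ := fund G with hΦ
  have hcol : ∀ i j, sh c (q₀ ^ k) * d⁄dX ℂ (Φ i j) = ∑ l, sh c (A i l) * Φ l j := by
    intro i j
    have h1 := congrFun (congrFun (fund_ode G) i) j
    rw [mD_apply, Matrix.mul_apply] at h1
    rw [h1, Finset.mul_sum]
    refine Finset.sum_congr rfl fun l _ => ?_
    rw [hG]
    linear_combination (sh c (A i l) * fund G l j) * hqw
  have hdet : Φ.det ≠ 0 := by
    intro h0
    have h1 := congrArg (constantCoeff (R := ℂ)) h0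
    rw [RingHom.map_det, map_zero] at h1
    have h2 : (constantCoeff (R := ℂ)).mapMatrix Φ = 1 := by
      ext i j
      have := fund_zero G i j
      rw [coeff_zero_eq_constantCoeff_apply] at this
      exact this
    rw [h2, Matrix.det_one] at h1
    exact one_ne_zero h1
  have hmem : ∀ i j, toL (Φ i j) ∈ L := fun i j => hL (fun i => Φ i j) (fun i => hcol i j) i
  -- the order of the poles at `0` and `1`
  have hM : ∀ b : ℤ, b = 0 ∨ b = 1 → ∃ M : ℕ, ∀ (σ : L →+* Hq), Over L (b - c) σ →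
      ∀ i j, Sp Zs (σ ⟨_, hmem i j⟩) ∧ ∃ e : ℕ, e ≤ M ∧ Sp (Ge (-(e : ℚ))) (σ ⟨_, hmem i j⟩) := by
    intro b hb
    obtain ⟨u, v, hu, hv⟩ := exists_uv b hb
    have h1 : ∀ σ : L →+* Hq, ∃ e : ℕ, ∀ ij : ι × ι, Sp (Ge (-(e : ℚ))) (σ ⟨_, hmem ij.1 ij.2⟩) :=
      fun σ => exists_Ge_fin fun ij : ι × ι => σ ⟨_, hmem ij.1 ij.2⟩
    choose e he using h1
    have hfin := finite_over L ((b : ℂ) - c)
    obtain ⟨M, hM⟩ := (hfin.image e).bddAbove
    refine ⟨M, fun σ hσ i j => ⟨?_, e σ, hM ⟨σ, hσ, rfl⟩, he σ (i, j)⟩⟩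
    exact hσ.sing c q₀ b (by ring) u v hu hv k A Φ hcol hdet hmem i j
  obtain ⟨M₀, hM₀⟩ := hM 0 (Or.inl rfl)
  obtain ⟨M₁, hM₁⟩ := hM 1 (Or.inr rfl)
  set M := max M₀ M₁ with hMdef
  -- the entries are polynomials after multiplication
  have hpol : ∀ i j, ∃ P : Polynomial ℂ, sh c q₀ ^ M * Φ i j = (P : ℂ⟦X⟧) := by
    intro i j
    have hm1 : toL (sh c q₀ ^ M * Φ i j) ∈ L := by
      rw [map_mul, ← map_pow, ← coe_el L c]
      exact L.mul_mem (el L c (q₀ ^ M)).2 (hmem i j)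
    refine poly_main L _ hm1 ?_
    intro a σ hσC hσX
    have hσ : Over L a σ := ⟨hσC, hσX⟩
    have e1 : σ ⟨_, hm1⟩ = oH (sh (a + c) q₀) ^ M * σ ⟨_, hmem i j⟩ := by
      have h5 : (⟨_, hm1⟩ : L) = el L c (q₀ ^ M) * ⟨_, hmem i j⟩ := by
        apply Subtype.ext
        change toL (sh c q₀ ^ M * Φ i j) = ((el L c (q₀ ^ M) : L) : LaurentSeries ℂ) * toL (Φ i j)
        rw [coe_el, map_mul, map_pow, map_pow, map_pow]
      rw [h5, map_mul, hσ.el, map_pow, map_pow]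
    have e2 : Sp Ns (σ ⟨_, hm1⟩) := by
      rw [e1]
      have hsing : ∀ b : ℤ, b = 0 ∨ b = 1 → a + c = b → (∃ e : ℕ, e ≤ M ∧
          Sp Zs (σ ⟨_, hmem i j⟩) ∧ Sp (Ge (-(e : ℚ))) (σ ⟨_, hmem i j⟩)) →
          Sp Ns (oH (sh (a + c) q₀) ^ M * σ ⟨_, hmem i j⟩) := by
        intro b hb hab ⟨e, he1, he2, he3⟩
        obtain ⟨u, v, hu, hv⟩ := exists_uv b hb
        have e3 : oH (sh (a + c) q₀) = vs * oH (mz u) := by
          rw [hab, ← mz_shZ, hu, map_mul, map_mul]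
          congr 1
          unfold mz
          rw [PowerSeries.map_X, oH_X]
          rfl
        rw [e3, mul_pow, mul_right_comm, ← map_pow]
        exact Sp.mul (sp_shift he2 he3 he1) (oH_sp _) Ns_add
      by_cases h0 : a + c = 0
      · have ha : ((0 : ℤ) : ℂ) - c = a := by push_cast; linear_combination -h0
        obtain ⟨g1, e, g2, g3⟩ := hM₀ σ (by rw [ha]; exact hσ) i j
        exact hsing 0 (Or.inl rfl) (by push_cast; exact h0) ⟨e, g2.trans (le_max_left _ _), g1, g3⟩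
      · by_cases h1 : a + c = 1
        · have ha : ((1 : ℤ) : ℂ) - c = a := by push_cast; linear_combination -h1
          obtain ⟨g1, e, g2, g3⟩ := hM₁ σ (by rw [ha]; exact hσ) i j
          exact hsing 1 (Or.inr rfl) (by push_cast; exact h1)
            ⟨e, g2.trans (le_max_right _ _), g1, g3⟩
        · rw [← map_pow]
          refine Sp.mul (oH_sp _) ?_ Ns_add
          refine hσ.reg c (q₀ ^ k) ?_ A (fun i => Φ i j) (fun i => hcol i j) (fun i => hmem i j) i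
          rw [map_pow, coeff_zero_eq_constantCoeff_apply, map_pow, sh_q₀]
          refine pow_ne_zero _ ?_
          simp only [map_mul, map_sub, map_add, constantCoeff_X, constantCoeff_C, map_one, zero_add]
          exact mul_ne_zero h0 (sub_ne_zero.2 (Ne.symm h1))
    exact e2
  refine ⟨M, fun y hy i => ?_⟩
  choose P hP using hpol
  refine ⟨∑ j, Polynomial.C (coeff 0 (y j)) * P i j, ?_⟩
  rw [sol_eq G y (hsolG y hy) i, Finset.mul_sum]
  have h1 : ((∑ j, Polynomial.C (coeff 0 (y j)) * P i j : Polynomial ℂ) : ℂ⟦X⟧) =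
      ∑ j, C (coeff 0 (y j)) * (P i j : ℂ⟦X⟧) := by
    have h2 := map_sum (Polynomial.coeToPowerSeries.ringHom (R := ℂ))
      (fun j => Polynomial.C (coeff 0 (y j)) * P i j) Finset.univ
    simp only [Polynomial.coeToPowerSeries.ringHom_apply, Polynomial.coe_mul, Polynomial.coe_C] at h2
    exact h2
  rw [h1]
  refine Finset.sum_congr rfl fun j _ => ?_
  rw [← hP i j]
  ring

end Pool.Agent.N780.Rat
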