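import Mathlib
import Pool.Agent.N780.FinalE
import Pool.Agent.N780.DefsR
import Pool.Agent.N780.R.E3

set_option autoImplicit false

/-!
The effective form with rational solutions.
-/

namespace Pool.Agent.N780

open PowerSeries
open scoped RatFunc

/-- the effective form with rational solutions for integer polynomials -/
def EffR (c : ℂ) (h : ℕ → ℕ) : Prop :=
  ∀ (ι : Type) [Fintype ι] [DecidableEq ι] (k a : ℕ), ∃ K : ℕ,
    ∀ (H : ℕ) (A : Matrix ι ι (Polynomial ℤ)), (∀ i j, (A i j).natDegree ≤ a) →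
      (∀ i j l, |(A i j).coeff l| ≤ (H : ℤ)) →
      (∀ p : ℕ, p.Prime → p ≤ K * (H + 1) → Level (Rat.q₀ ^ k) A p (h p)) →
      ∃ M : ℕ, ∀ y : ι → ℂ⟦X⟧,
        (∀ i, sh c (Rat.q₀ ^ k) * d⁄dX ℂ (y i) = ∑ j, sh c (A i j) * y j) →
        ∀ i, ∃ P : Polynomial ℂ, sh c Rat.q₀ ^ M * y i = (P : ℂ⟦X⟧)

theorem effR_of {c : ℂ} (hc0 : c ≠ 0) (hc1 : c ≠ 1) {h : ℕ → ℕ} (hE : Eff c Rat.q₀ h) : EffR c h := by
  obtain ⟨N, hN⟩ := hE
  intro ι _ _ k a
  obtain ⟨K, hK⟩ := hN ι k a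
  refine ⟨K, fun H A hAd hAH hlev => ?_⟩
  obtain ⟨L, hL1, hL2, hL3⟩ := hK H A hAd hAH hlev
  exact Rat.rational_of_mem c hc0 hc1 k A hL3

/-- passage to the rings with a basis over `ℤ` -/
theorem fr_effR {c : ℂ} {h : ℕ → ℕ} (hE : EffR c h) :
    PCurv.EffectivelyRational c Rat.q₀ h := by
  classical
  intro R _ d b n k a
  obtain ⟨K, hK⟩ := hE (Fin n × Fin d) k a
  refine ⟨K * (tbl b + 1), fun ρ H A hAd hAH hlev => ?_⟩
  have hρ : ∃ a, ρ (b a) ≠ 0 := by
    by_contra hcon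
    push Not at hcon
    have h1 : ρ 1 = 0 := by
      rw [← b.sum_repr 1, map_sum]
      refine Finset.sum_eq_zero fun a _ => ?_
      rw [zsmul_eq_mul, map_mul, hcon a, mul_zero]
    rw [map_one] at h1
    exact one_ne_zero h1
  obtain ⟨a₀, ha₀⟩ := hρ
  obtain ⟨M, hM⟩ := hK (tbl b * H) (Bl b A) (fun x y => (Th_deg b _ _ _).trans (hAd _ _))
    (fun x y l => by
      change |(Th b (A x.1 y.1) x.2 y.2).coeff l| ≤ _
      rw [coeff_Th]
      exact Lam_size b (fun e => hAH _ _ l e) _ _)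
    (fun p hp hpK => Bl_level b _ A (by
      rw [Polynomial.map_pow]
      have h0 := hlev p hp (hpK.trans (by
        calc K * (tbl b * H + 1) ≤ K * ((tbl b + 1) * (H + 1)) := by
              gcongr
              nlinarith
          _ = _ := by ring))
      intro s hsp x y
      have := h0 s hsp x y
      rwa [pcder_eq] at this))
  refine ⟨M, fun y hy i => ?_⟩
  have hy' : ∀ i, sh c (Rat.q₀ ^ k) * d⁄dX ℂ (y i) = ∑ j, shR ρ c (A i j) * y j := by
    intro x
    have := hy x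
    rw [← Polynomial.map_pow, expand_map] at this
    exact this
  obtain ⟨P, hP⟩ := hM (fun x => C (ρ (b x.2)) * y x.1)
    (fun x => Bl_sol b ρ c (Rat.q₀ ^ k) A y hy' x) (i, a₀)
  refine ⟨Polynomial.C (ρ (b a₀))⁻¹ * P, ?_⟩
  rw [Polynomial.coe_mul, Polynomial.coe_C, ← hP, expand_map]
  have e : C ((ρ (b a₀))⁻¹) * C (ρ (b a₀)) = 1 := by
    rw [← map_mul, inv_mul_cancel₀ ha₀, map_one]
  linear_combination (-(sh c Rat.q₀ ^ M * y i)) * e

theorem rat_general (h : ℕ → ℕ) (hs : Summable fun p : Nat.Primes => wt h p)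
    (hlt : ∑' p : Nat.Primes, wt h p < Real.log 3 / 2 + Real.log 16 / 3) :
    PCurv.EffectivelyRational ⟨1 / 2, -(Real.sqrt 3 / 2)⟩
      (Polynomial.X * (1 - Polynomial.X)) h := by
  have e : (⟨1 / 2, -(Real.sqrt 3 / 2)⟩ : ℂ) = -om := by
    apply Complex.ext
    · simp only [om, Complex.neg_re]; norm_num
    · simp only [om, Complex.neg_im]
  rw [e]
  have hre : (-om).re = 1 / 2 := by rw [← e]
  refine fr_effR (effR_of ?_ ?_ (three_eff h hs hlt))
  · intro h0
    rw [h0] at hre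
    norm_num at hre
  · intro h0
    rw [h0] at hre
    norm_num at hre

theorem rat_thin (S : Set ℕ)
    (hS : Summable fun p : Nat.Primes => S.indicator (fun p : ℕ => Real.log p / p) p)
    (hle : ∑' p : Nat.Primes, S.indicator (fun p : ℕ => Real.log p / p) p ≤
      Real.log 2 / 2 + Real.log 3 / 3) :
    PCurv.EffectivelyRational ⟨1 / 2, -(Real.sqrt 3 / 2)⟩
      (Polynomial.X * (1 - Polynomial.X)) (PCurv.outside S) := by
  refine rat_general (PCurv.outside S) (lvS_summable hS) ?_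
  have h1 := lvS_tsum hS
  have h2 := log_three_ge
  have h3 := log_sixteen
  have h4 : 0 < Real.log 2 := Real.log_pos (by norm_num)
  refine lt_of_le_of_lt h1 ?_
  rw [h3]
  nlinarith

end Pool.Agent.N780
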